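import Pool.Agent.CYL.Targets

set_option autoImplicit false

/-! CYL-GEO: orthonormal bases, translations. -/

namespace Pool.Agent.CYL

open MeasureTheory FourierTransform Set Filter Topology
open scoped ENNReal NNReal ComplexConjugate
open Pool.Agent.MBS (E ex S)

namespace GEO_

/-- the isometric embedding given by an orthonormal basis of a subspace -/
noncomputable def emb {n : ℕ} (W : Submodule ℝ (E n)) :
    E (Module.finrank ℝ W) →ₗᵢ[ℝ] E n :=
  W.subtypeₗᵢ.comp (stdOrthonormalBasis ℝ W).repr.symm.toLinearIsometry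

theorem emb_mem {n : ℕ} (W : Submodule ℝ (E n)) (y : E (Module.finrank ℝ W)) :
    emb W y ∈ W := by
  unfold emb
  simp

theorem emb_surj {n : ℕ} (W : Submodule ℝ (E n)) (x : E n) (hx : x ∈ W) :
    ∃ y, emb W y = x := by
  refine ⟨(stdOrthonormalBasis ℝ W).repr ⟨x, hx⟩, ?_⟩
  unfold emb
  simp

theorem spl {n : ℕ} (W : Submodule ℝ (E n)) : Spl (emb Wᗮ) (emb W) := by
  refine ⟨fun t y => ?_, fun x => ?_⟩
  · exact Submodule.inner_left_of_mem_orthogonal (emb_mem W y) (emb_mem Wᗮ t)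
  · obtain ⟨y, hy, z, hz, h⟩ := W.exists_add_mem_mem_orthogonal x
    obtain ⟨t, ht⟩ := emb_surj Wᗮ z hz
    obtain ⟨y', hy'⟩ := emb_surj W y hy
    exact ⟨t, y', by rw [ht, hy', h, add_comm]⟩

theorem dist_eq {n : ℕ} (W : Submodule ℝ (E n)) (t : E (Module.finrank ℝ Wᗮ))
    (y : E (Module.finrank ℝ W)) :
    Metric.infDist (emb Wᗮ t + emb W y) (W : Set (E n)) = ‖t‖ := by
  apply le_antisymm
  · refine (Metric.infDist_le_dist_of_mem (y := emb W y) (emb_mem W y)).trans (le_of_eq ?_)
    rw [dist_eq_norm, add_sub_cancel_right, LinearIsometry.norm_map]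
  · rw [Metric.le_infDist ⟨0, W.zero_mem⟩]
    intro w hw
    have h1 : inner ℝ (emb Wᗮ t) (emb W y - w) = 0 :=
      Submodule.inner_left_of_mem_orthogonal (W.sub_mem (emb_mem W y) hw) (emb_mem Wᗮ t)
    have h2 := norm_add_sq_eq_norm_sq_add_norm_sq_of_inner_eq_zero (emb Wᗮ t) (emb W y - w) h1
    rw [dist_eq_norm, add_sub_assoc]
    rw [LinearIsometry.norm_map] at h2
    apply le_of_sq_le_sq _ (norm_nonneg _)
    nlinarith [mul_self_nonneg ‖emb W y - w‖]

theorem ex_add {n : ℕ} (x p ξ : E n) : ex p ξ * ex x ξ = ex (x + p) ξ := by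
  unfold ex
  rw [← Complex.exp_add, inner_add_left]
  congr 1
  push_cast
  ring

theorem ft_add {n : ℕ} (f : E n → ℂ) (p ξ : E n) :
    𝓕 (fun z => f (z + p)) ξ = 𝓕 f ξ * ex p ξ := by
  rw [Real.fourier_eq', Real.fourier_eq']
  have h1 := integral_add_right_eq_self (μ := (volume : Measure (E n)))
    (fun v : E n => Complex.exp (((-2 * Real.pi * inner ℝ (v - p) ξ : ℝ) : ℂ) * Complex.I) •
      f v) p
  simp only [add_sub_cancel_right] at h1
  rw [h1, ← integral_mul_const]
  refine integral_congr_ae (Eventually.of_forall fun v => ?_)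
  have h2 : Complex.exp (((-2 * Real.pi * inner ℝ v ξ : ℝ) : ℂ) * Complex.I) * ex p ξ =
      Complex.exp (((-2 * Real.pi * inner ℝ (v - p) ξ : ℝ) : ℂ) * Complex.I) := by
    unfold ex
    rw [← Complex.exp_add, inner_sub_left]
    congr 1
    push_cast
    ring
  simp only [smul_eq_mul]
  rw [← h2]
  ring

end GEO_

open GEO_ in
theorem p_GEO : T_GEO := by
  refine ⟨fun n W hW => ?_, fun n f p R x _ => ?_⟩
  · refine ⟨Module.finrank ℝ Wᗮ, Module.finrank ℝ W, emb Wᗮ, emb W, ?_, ?_, spl W,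
      dist_eq W⟩
    · rw [Submodule.one_le_finrank_iff]
      intro h
      exact hW (Submodule.orthogonal_eq_bot_iff.1 h)
    · have h := Submodule.finrank_le Wᗮ
      rwa [finrank_euclideanSpace_fin] at h
  · unfold S
    refine integral_congr_ae (Eventually.of_forall fun ξ => ?_)
    simp only
    rw [ft_add, mul_assoc, ex_add]

end Pool.Agent.CYL
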