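import Pool.Agent.CYL.Targets

set_option autoImplicit false

/-!
# CYL: an orthogonal splitting preserves the measure (target SPL)
-/

namespace Pool.Agent.CYL

open MeasureTheory FourierTransform Set Filter Topology
open scoped ENNReal NNReal ComplexConjugate
open Pool.Agent.MBS (E ex S)

namespace SPL_

variable {n d m : ℕ} {a : E d →ₗᵢ[ℝ] E n} {b : E m →ₗᵢ[ℝ] E n}

theorem nsq (hs : Spl a b) (t : E d) (y : E m) : ‖a t + b y‖ ^ 2 = ‖t‖ ^ 2 + ‖y‖ ^ 2 := by
  rw [norm_add_sq_real, hs.orth, a.norm_map, b.norm_map]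
  ring

/-- the isometry `(t, y) ↦ a t + b y` -/
noncomputable def iso (hs : Spl a b) : WithLp 2 (E d × E m) →ₗᵢ[ℝ] E n where
  toLinearMap := (a.toLinearMap.coprod b.toLinearMap) ∘ₗ
    (WithLp.linearEquiv 2 ℝ (E d × E m)).toLinearMap
  norm_map' x := by
    have h := WithLp.prod_norm_sq_eq_of_L2 x
    have h2 := nsq hs x.fst x.snd
    refine (sq_eq_sq₀ (norm_nonneg _) (norm_nonneg _)).1 ?_
    rw [h, ← h2]
    rfl

theorem iso_apply (hs : Spl a b) (q : E d × E m) :
    iso hs (WithLp.toLp 2 q) = a q.1 + b q.2 := rfl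

theorem mp (hs : Spl a b) :
    MeasurePreserving (fun q : E d × E m => a q.1 + b q.2) (volume.prod volume) volume := by
  have hsurj : Function.Surjective (iso hs) := by
    intro x
    obtain ⟨t, y, h⟩ := hs.span x
    exact ⟨WithLp.toLp 2 (t, y), by rw [iso_apply, h]⟩
  have h1 := (LinearIsometryEquiv.ofSurjective (iso hs) hsurj).measurePreserving
  have h2 := h1.comp (WithLp.volume_preserving_toLp (E d) (E m))
  exact h2

end SPL_

open SPL_ in
/-- SPL. -/
theorem p_SPL : T_SPL := by
  intro n d m a b hs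
  have hmp := mp hs
  refine ⟨hmp, fun F hF => ?_, fun F hF => ?_, fun t τ y η => ?_, nsq hs⟩
  · rw [← hmp.lintegral_comp hF, lintegral_prod]
    exact (hF.comp hmp.measurable).aemeasurable
  · have hi : Integrable (fun q : E d × E m => F (a q.1 + b q.2)) (volume.prod volume) :=
      (hmp.integrable_comp hF.aestronglyMeasurable).2 hF
    refine ⟨hi, ?_⟩
    have h1 : ∫ x, F x = ∫ q : E d × E m, F (a q.1 + b q.2) ∂(volume.prod volume) := by
      have h2 : AEStronglyMeasurable F
          (Measure.map (fun q : E d × E m => a q.1 + b q.2) (volume.prod volume)) := by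
        rw [hmp.map_eq]
        exact hF.aestronglyMeasurable
      rw [← integral_map hmp.measurable.aemeasurable h2, hmp.map_eq]
    rw [h1, integral_prod _ hi]
  · have h : inner ℝ (a t + b y) (a τ + b η) = inner ℝ t τ + inner ℝ y η := by
      rw [inner_add_left, inner_add_right, inner_add_right, a.inner_map_map, b.inner_map_map,
        hs.orth, real_inner_comm (a τ) (b y), hs.orth]
      ring
    unfold ex
    rw [h, ← Complex.exp_add]
    congr 1
    push_cast
    ring

end Pool.Agent.CYL
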