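import Pool.Agent.CRR.Targets2

set_option autoImplicit false

/-!
# CYL: choices of the radius near a function of the distance to a subspace (MP_ee701d_an)

For `n ≥ 2`, an affine subspace `p + W ≠ ℝⁿ`, `A ≥ 0` and Borel `R : ℝⁿ → (0,∞)`, `R₀ : ℝ → (0,∞)` with
`|R(x) - R₀(dist(x, p + W))| ≤ A/|x - p|`: `∫ |S_{R(x)} f(x)|² dx ≤ C(n) (log(2+A))² ∫ |f|²` for all Borel `f ∈ L¹ ∩ L²`.
`W = 0` is `RadialChoice`; `dim W = n - 1`: `R₀` is any function of one coordinate.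

Every target `T_X` is to be proved as `theorem p_X : T_X` (other targets may be taken as hypotheses)
in a NEW file `Pool/Agent/CYL/P_X.lean` importing this one, namespace `Pool.Agent.CYL`, helper lemmas
in the sub-namespace `X_`. `ex x ξ = e^{2πi x·ξ}`, `S f R x = ∫_{|ξ| ≤ R} 𝓕 f ξ ex x ξ dξ`. The dimension `m = 0` is allowed
(`E 0` is a point, its volume is `1`).
-/

namespace Pool.Agent.CYL

open MeasureTheory FourierTransform Set Filter Topology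
open scoped ENNReal NNReal ComplexConjugate
open Pool.Agent.MBS (E ex S)
open Pool.Agent.CAR (e1)
open Pool.Agent.CRN (Nice T_CARLS)
open Pool.Agent.CRR (T_RLIN T_OSC)

/-- an orthogonal splitting `ℝⁿ = ℝᵈ ⊕ ℝᵐ`, `x = a t + b y` -/
structure Spl {n d m : ℕ} (a : E d →ₗᵢ[ℝ] E n) (b : E m →ₗᵢ[ℝ] E n) : Prop where
  orth : ∀ (t : E d) (y : E m), inner ℝ (a t) (b y) = 0
  span : ∀ x : E n, ∃ (t : E d) (y : E m), x = a t + b y

/-- the partial Fourier transform `∫ f(a t + b y) e^{-2πi y·η} dy` -/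
noncomputable def PF {n d m : ℕ} (a : E d →ₗᵢ[ℝ] E n) (b : E m →ₗᵢ[ℝ] E n) (f : E n → ℂ)
    (η : E m) (t : E d) : ℂ := ∫ y, f (a t + b y) * ex y (-η)

/-- slices of the ball partial sums -/
noncomputable def GS {n d m : ℕ} (a : E d →ₗᵢ[ℝ] E n) (b : E m →ₗᵢ[ℝ] E n) (f : E n → ℂ)
    (ρ : ℝ) (η : E m) (t : E d) : ℂ :=
  ∫ τ in Metric.closedBall (0 : E d) ρ, 𝓕 f (a τ + b η) * ex t τ

/-- **SPL** (60 min). `(t, y) ↦ a t + b y` is a bijective linear map `E d × E m → E n` which preserves the measure: by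
`finrank`, `n = d + m`; compose with the linear isometry onto `E (d + m)` given by the orthonormal basis `a e_i, b e_j`
(`LinearIsometryEquiv.measurePreserving`), then it is the map `(t, y) ↦ Fin.append t y` and
`MeasureTheory.volume_measurePreserving_sumPiEquivProdPi_symm` or a similar lemma (`Fin d ⊕ Fin m ≃ Fin (d+m)`)
with `EuclideanSpace.volume_preserving_symm_measurableEquiv_toLp`. (Or: a translation invariant measure is a multiple of the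
volume, `MeasureTheory.Measure.isAddHaarMeasure_eq_smul`, and the Gaussian integral `∫ e^{-π|x|²} = 1` gives the constant;
`|a t + b y|² = |t|² + |y|²`.) The last two: `orth` and isometries. -/
def T_SPL : Prop := ∀ (n d m : ℕ) (a : E d →ₗᵢ[ℝ] E n) (b : E m →ₗᵢ[ℝ] E n), Spl a b →
  (MeasurePreserving (fun q : E d × E m => a q.1 + b q.2) (volume.prod volume) volume) ∧
  (∀ F : E n → ℝ≥0∞, Measurable F → ∫⁻ x, F x = ∫⁻ t : E d, ∫⁻ y : E m, F (a t + b y)) ∧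
  (∀ F : E n → ℂ, Integrable F →
    Integrable (fun q : E d × E m => F (a q.1 + b q.2)) (volume.prod volume) ∧
    ∫ x, F x = ∫ t : E d, ∫ y : E m, F (a t + b y)) ∧
  (∀ (t τ : E d) (y η : E m), ex (a t + b y) (a τ + b η) = ex t τ * ex y η) ∧
  ∀ (t : E d) (y : E m), ‖a t + b y‖ ^ 2 = ‖t‖ ^ 2 + ‖y‖ ^ 2

/-- **PFT** (75 min; uses SPL). Measurability: `StronglyMeasurable.integral_prod_right'` for the integrand
`((η, t), y) ↦ f (a t + b y) ex y (-η)`. `∫_t |PF η t| ≤ ∫ |f|`, so `PF η` is integrable for every `η`, and (Fubini)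
`𝓕 (PF η) τ = 𝓕 f (a τ + b η)` for all `τ`, hence `S (PF η) ρ t = GS ρ η t`. For almost every `t` the function
`f(a t + b ·)` is in `L¹ ∩ L²` (SPL) and `PF · t` is its Fourier transform: Plancherel
(`Pool.Agent.H25.Plancherel.eLpNorm_fourier_eq`) and Tonelli give the last equality; so `PF η ∈ L²` for almost every `η`. -/
def T_PFT : Prop := ∀ (n d m : ℕ) (a : E d →ₗᵢ[ℝ] E n) (b : E m →ₗᵢ[ℝ] E n) (f : E n → ℂ),
  Spl a b → Nice f →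
  Measurable (fun q : E m × E d => PF a b f q.1 q.2) ∧
  (∀ᵐ η : E m, Nice (PF a b f η) ∧
    ∀ (ρ : ℝ) (t : E d), S (PF a b f η) ρ t = GS a b f ρ η t) ∧
  ∫⁻ η, ∫⁻ t, ‖PF a b f η t‖ₑ ^ 2 = ∫⁻ x, ‖f x‖ₑ ^ 2

/-- **MEA** (30 min). `𝓕 f` is continuous (`f` is integrable), the indicator of `‖τ‖ ≤ ρ q` is jointly measurable:
`StronglyMeasurable.integral_prod_right'`. -/
def T_MEA : Prop := ∀ (n d m : ℕ) (a : E d →ₗᵢ[ℝ] E n) (b : E m →ₗᵢ[ℝ] E n) (f : E n → ℂ),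
  Nice f → ∀ ρ : E m × E d → ℝ, Measurable ρ →
  Measurable (fun q : E m × E d => GS a b f (ρ q) q.1 q.2)

/-- **PLY** (75 min; uses SPL, MEA). By SPL the ball `|ξ| ≤ R` is `|τ|² + |η|² ≤ R²` and
`S f R (a t + b y) = ∫_η G(η) ex y η dη`, `G(η) = GS (√(R² - |η|²)) η t` for `|η| < R`, `G(η) = 0` for `|η| > R` (and the sphere
`|η| = R` is a null set, also if `m = 0`). `G` is measurable, bounded (`|𝓕 f| ≤ ∫ |f|`) and of bounded support, so `G ∈ L¹ ∩ L²`,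
and `y ↦ ∫ G(η) ex y η dη` is its inverse Fourier transform: Plancherel
(`Pool.Agent.H25.Plancherel.eLpNorm_fourier_eq` for `G`, and `y ↦ -y`). -/
def T_PLY : Prop := ∀ (n d m : ℕ) (a : E d →ₗᵢ[ℝ] E n) (b : E m →ₗᵢ[ℝ] E n) (f : E n → ℂ),
  Spl a b → Nice f → ∀ (R : ℝ) (t : E d), 0 < R →
  ∫⁻ y, ‖S f R (a t + b y)‖ₑ ^ 2 =
    ∫⁻ η in Metric.ball (0 : E m) R, ‖GS a b f (Real.sqrt (R ^ 2 - ‖η‖ ^ 2)) η t‖ₑ ^ 2

/-- **LI1** (60 min): Carleson's theorem for symmetric intervals. `E 1 ≃ ℝ`, `h = 𝓕 f` as a function on `ℝ`: in `L²` (Plancherel)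
and bounded. `S f ρ x = ∫_{-ρ}^{ρ} h(ξ) e1 (x 0 * ξ) dξ` is for `ρ ≤ N` the difference of two integrals over half lines of
`g_N = h 1_{[-N,N]} ∈ L¹ ∩ L²` (single points are null sets), so `|S f ρ x| ≤ 2 sup_m |∫_{Iio m} g_N e1(x 0 ·)|`:
`T_CARLS` bounds `∫_{ρ(x) ≤ N}`; `N → ∞` by monotone convergence. `∫ |h|² = ∫ |f|²`. -/
def T_LI1 : Prop := T_CARLS → ∃ C : ℝ≥0, ∀ (f : E 1 → ℂ) (ρ : E 1 → ℝ), Nice f → Measurable ρ →
  (∀ t, 0 < ρ t) → ∫⁻ x, ‖S f (ρ x) x‖ₑ ^ 2 ≤ C * ∫⁻ x, ‖f x‖ₑ ^ 2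

/-- **CYB** (45 min; uses RLIN (for `d ≥ 2`), LI1 (for `d = 1`), PFT, MEA, PLY). PLY for every `t`:
`∫_t ∫_y |S f (R ‖t‖) (a t + b y)|² = ∫_t ∫_η 1_{‖η‖ < R ‖t‖} |GS (√(R(‖t‖)² - ‖η‖²)) η t|²`; exchange the integrals (MEA). For
almost every `η` (PFT) the inner integral is at most `∫_t |S (PF η) (ρ_η ‖t‖) t|² ≤ C ∫_t |PF η t|²` with
`ρ_η(r) = √(R(r)² - ‖η‖²)` if `‖η‖ < R(r)`, `ρ_η(r) = 1` otherwise. Then the last part of PFT. -/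
def T_CYB : Prop := T_CARLS → ∀ d : ℕ, 1 ≤ d → ∃ C : ℝ≥0, ∀ (n m : ℕ) (a : E d →ₗᵢ[ℝ] E n)
  (b : E m →ₗᵢ[ℝ] E n) (f : E n → ℂ) (R : ℝ → ℝ), Spl a b → Nice f → Measurable R →
  (∀ r, 0 < R r) →
  ∫⁻ t, ∫⁻ y, ‖S f (R ‖t‖) (a t + b y)‖ₑ ^ 2 ≤ C * ∫⁻ x, ‖f x‖ₑ ^ 2

/-- **GEO** (45 min). First: orthonormal bases of `Wᗮ` (dimension `d ≥ 1`) and of `W` (dimension `m`),
`stdOrthonormalBasis`; the distance from `a t + b y`, `b y ∈ W`, `a t ∈ Wᗮ`, to `W` is `‖a t‖ = ‖t‖`. Second: the transform of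
`f(· + p)` is `𝓕 f ξ ex p ξ` (`Real.fourier_comp_add_right` or substitution). -/
def T_GEO : Prop :=
  (∀ (n : ℕ) (W : Submodule ℝ (E n)), W ≠ ⊤ → ∃ (d m : ℕ) (a : E d →ₗᵢ[ℝ] E n)
    (b : E m →ₗᵢ[ℝ] E n), 1 ≤ d ∧ d ≤ n ∧ Spl a b ∧
    ∀ (t : E d) (y : E m), Metric.infDist (a t + b y) (W : Set (E n)) = ‖t‖) ∧
  ∀ (n : ℕ) (f : E n → ℂ) (p : E n) (R : ℝ) (x : E n), Integrable f →
    S (fun z => f (z + p)) R x = S f R (x + p)

/-- **CYL** (60 min; uses OSC, CYB, GEO, SPL): the final theorem. By GEO (second part) and translation we may assume `p = 0`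
(`f ↦ f(· + p)`, `R ↦ R(· + p)`). `|S f (R x) x| ≤ |S f (R₀ (dist x)) x| + |S f (R x) x - S f (R₀ (dist x)) x|`; the
second is at most the supremum in OSC for `x ≠ 0`; the first: CYB and SPL (measurability of `x ↦ S f (R₀ (dist x)) x`: as in
`Pool/Agent/CRR/P_RCH.lean`, `P_RLIN.lean`). `C = 2 max_{1 ≤ d ≤ n} C_d / (log 2)² + 2 C_OSC`, `log(2+A) ≥ log 2`. -/
def T_CYL : Prop := T_CARLS → ∀ n : ℕ, 2 ≤ n → ∃ C : ℝ≥0, ∀ (W : Submodule ℝ (E n)) (p : E n)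
  (A : ℝ) (f : E n → ℂ) (R : E n → ℝ) (R₀ : ℝ → ℝ), W ≠ ⊤ → 0 ≤ A → Nice f → Measurable R →
  (∀ x, 0 < R x) → Measurable R₀ → (∀ r, 0 < R₀ r) →
  (∀ x, x ≠ p → |R x - R₀ (Metric.infDist (x - p) (W : Set (E n)))| ≤ A / ‖x - p‖) →
  ∫⁻ x, ‖S f (R x) x‖ₑ ^ 2 ≤ C * ENNReal.ofReal (Real.log (2 + A) ^ 2) * ∫⁻ x, ‖f x‖ₑ ^ 2

end Pool.Agent.CYL
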