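import Pool.Agent.CYL.Targets

set_option autoImplicit false

/-!
# CYL, target CYB: the cylindrical theorem for A = 0
-/

namespace Pool.Agent.CYL

open MeasureTheory FourierTransform Set Filter Topology
open scoped ENNReal NNReal ComplexConjugate
open Pool.Agent.MBS (E ex S)
open Pool.Agent.CAR (e1)
open Pool.Agent.CRN (Nice T_CARLS)
open Pool.Agent.CRR (T_RLIN T_OSC)

namespace CYB_

/-- the linearised form for all `d ≥ 1` -/
theorem lin (h1 : T_RLIN) (h2 : T_LI1) (hC : T_CARLS) (d : ℕ) (hd : 1 ≤ d) :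
    ∃ C : ℝ≥0, ∀ (f : E d → ℂ) (ρ : ℝ → ℝ), Nice f → Measurable ρ → (∀ t, 0 < ρ t) →
      ∫⁻ x, ‖S f (ρ ‖x‖) x‖ₑ ^ 2 ≤ C * ∫⁻ x, ‖f x‖ₑ ^ 2 := by
  rcases Nat.lt_or_ge 1 d with h | h
  · exact h1 hC d h
  · obtain rfl : d = 1 := by omega
    obtain ⟨C, hc⟩ := h2 hC
    exact ⟨C, fun f ρ hf hρ hpos => hc f (fun x => ρ ‖x‖) hf (hρ.comp measurable_norm)
      fun t => hpos _⟩

/-- the radius on the slice -/
noncomputable def rh (R : ℝ → ℝ) (c : ℝ) (r : ℝ) : ℝ :=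
  if c < R r then Real.sqrt (R r ^ 2 - c ^ 2) else 1

theorem rh_meas {R : ℝ → ℝ} (hR : Measurable R) (c : ℝ) : Measurable (rh R c) := by
  unfold rh
  refine Measurable.ite (measurableSet_lt measurable_const hR) ?_ measurable_const
  exact ((hR.pow_const 2).sub_const _).sqrt

theorem rh_pos (R : ℝ → ℝ) {c : ℝ} (hc : 0 ≤ c) (r : ℝ) : 0 < rh R c r := by
  unfold rh
  split_ifs with h
  · refine Real.sqrt_pos.2 ?_
    nlinarith
  · exact one_pos

end CYB_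

open CYB_ in
theorem p_CYB (h1 : T_RLIN) (h2 : T_LI1) (h3 : T_PFT) (h4 : T_MEA) (h5 : T_PLY) : T_CYB := by
  intro hC d hd
  obtain ⟨C, hlin⟩ := lin h1 h2 hC d hd
  refine ⟨C, fun n m a b f R hs hf hR hpos => ?_⟩
  obtain ⟨-, hae, hpl⟩ := h3 n d m a b f hs hf
  set ρ : E m × E d → ℝ := fun q => Real.sqrt (R ‖q.2‖ ^ 2 - ‖q.1‖ ^ 2) with hρ
  have hRm : Measurable fun q : E m × E d => R ‖q.2‖ := hR.comp measurable_snd.norm
  have hρm : Measurable ρ := ((hRm.pow_const 2).sub (measurable_fst.norm.pow_const 2)).sqrt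
  set Φ : E m × E d → ℝ≥0∞ := fun q =>
    if ‖q.1‖ < R ‖q.2‖ then ‖GS a b f (ρ q) q.1 q.2‖ₑ ^ 2 else 0 with hΦ
  have hΦm : Measurable Φ := by
    refine Measurable.ite (measurableSet_lt measurable_fst.norm hRm) ?_ measurable_const
    exact (h4 n d m a b f hf ρ hρm).enorm.pow_const 2
  have e1' : ∀ t : E d, ∫⁻ y, ‖S f (R ‖t‖) (a t + b y)‖ₑ ^ 2 = ∫⁻ η : E m, Φ (η, t) := by
    intro t
    rw [h5 n d m a b f hs hf (R ‖t‖) t (hpos _), ← lintegral_indicator measurableSet_ball]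
    refine lintegral_congr fun η => ?_
    simp only [indicator, Metric.mem_ball, dist_zero_right, hΦ, hρ]
  simp only [e1']
  rw [lintegral_lintegral_swap (f := fun (t : E d) (η : E m) => Φ (η, t))
    (hΦm.comp measurable_swap).aemeasurable]
  have e2' : ∀ᵐ η : E m, ∫⁻ t : E d, Φ (η, t) ≤ C * ∫⁻ t, ‖PF a b f η t‖ₑ ^ 2 := by
    filter_upwards [hae] with η hη
    obtain ⟨hN, hS⟩ := hη
    refine le_trans ?_ (hlin (PF a b f η) (rh R ‖η‖) hN (rh_meas hR _)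
      (rh_pos R (norm_nonneg _)))
    refine lintegral_mono fun t => ?_
    simp only [hΦ, hρ]
    split_ifs with h
    · rw [hS]
      unfold rh
      rw [if_pos h]
    · exact zero_le
  calc ∫⁻ η : E m, ∫⁻ t : E d, Φ (η, t)
      ≤ ∫⁻ η : E m, C * ∫⁻ t, ‖PF a b f η t‖ₑ ^ 2 := lintegral_mono_ae e2'
    _ = C * ∫⁻ η : E m, ∫⁻ t, ‖PF a b f η t‖ₑ ^ 2 := lintegral_const_mul' _ _ (by simp)
    _ = _ := by rw [hpl]

end Pool.Agent.CYL
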