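import Pool.Agent.CYL.Targets
import Pool.Agent.CRR.P_RCH

set_option autoImplicit false

/-!
# CYL, target CYL: the final theorem
-/

namespace Pool.Agent.CYL

open MeasureTheory FourierTransform Set Filter Topology
open scoped ENNReal NNReal ComplexConjugate
open Pool.Agent.MBS (E ex S)
open Pool.Agent.CAR (e1)
open Pool.Agent.CRN (Nice T_CARLS)
open Pool.Agent.CRR (T_RLIN T_OSC)

namespace CYL_

theorem nontriv {n : ℕ} (hn : 2 ≤ n) : Nontrivial (E n) := by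
  refine ⟨⟨EuclideanSpace.single (⟨0, by omega⟩ : Fin n) (1 : ℝ), 0, fun h => ?_⟩⟩
  have h1 : ‖EuclideanSpace.single (⟨0, by omega⟩ : Fin n) (1 : ℝ)‖ = 0 := by
    rw [h, norm_zero]
  simp at h1

theorem nice_shift {n : ℕ} {f : E n → ℂ} (hf : Nice f) (p : E n) :
    Nice (fun z => f (z + p)) where
  meas := hf.meas.comp (measurable_add_const p)
  int := hf.int.comp_add_right p
  sq := hf.sq.comp_measurePreserving (measurePreserving_add_right volume p)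

end CYL_

open CYL_ in
/-- CYL -/
theorem p_CYL (h1 : T_OSC) (h2 : T_CYB) (h3 : T_GEO) (h4 : T_SPL) : T_CYL := by
  intro hC n hn
  have h2' := h2 hC
  choose Cf hCf using h2'
  obtain ⟨C2, h1⟩ := h1 n hn
  set K : ℝ≥0 := ∑ d ∈ Finset.range (n + 1), (if h : 1 ≤ d then Cf d h else 0) with hK
  have hKd : ∀ (d : ℕ) (h : 1 ≤ d), d ≤ n → Cf d h ≤ K := by
    intro d h hd
    have e : Cf d h = (fun d => if h : 1 ≤ d then Cf d h else 0) d := by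
      simp only [dif_pos h]
    rw [e]
    exact Finset.single_le_sum (f := fun d => if h : 1 ≤ d then Cf d h else 0)
      (fun _ _ => zero_le) (Finset.mem_range.2 (by omega))
  have := nontriv hn
  -- the case `p = 0`
  have core : ∀ (W : Submodule ℝ (E n)) (A : ℝ) (f : E n → ℂ) (R : E n → ℝ) (R₀ : ℝ → ℝ),
      W ≠ ⊤ → 0 ≤ A → Nice f → (∀ x, 0 < R x) → Measurable R₀ → (∀ r, 0 < R₀ r) →
      (∀ x, x ≠ 0 → |R x - R₀ (Metric.infDist x (W : Set (E n)))| ≤ A / ‖x‖) →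
      ∫⁻ x, ‖S f (R x) x‖ₑ ^ 2 ≤
        ((8 * K + 2 * C2 : ℝ≥0) : ℝ≥0∞) * ENNReal.ofReal (Real.log (2 + A) ^ 2) *
          ∫⁻ x, ‖f x‖ₑ ^ 2 := by
    intro W A f R R₀ hW hA hf hR0 hR₀ hR₀0 hosc
    obtain ⟨d, m, a, b, hd1, hdn, hs, hdist⟩ := h3.1 n W hW
    set ρ : E n → ℝ := fun x => R₀ (Metric.infDist x (W : Set (E n))) with hρd
    have hρ : Measurable ρ := hR₀.comp measurable_infDist
    have hρ0 : ∀ x, 0 < ρ x := fun x => hR₀0 _
    have hm : Measurable (fun x : E n => ‖S f (ρ x) x‖ₑ ^ 2) :=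
      (Pool.Agent.CRR.RCH_.S_meas hf.int hρ).enorm.pow_const 2
    have a1 : ∫⁻ x, ‖S f (ρ x) x‖ₑ ^ 2 ≤ K * ∫⁻ x, ‖f x‖ₑ ^ 2 := by
      rw [(h4 n d m a b hs).2.1 _ hm]
      have e : ∀ (t : E d) (y : E m), ‖S f (ρ (a t + b y)) (a t + b y)‖ₑ ^ 2 =
          ‖S f (R₀ ‖t‖) (a t + b y)‖ₑ ^ 2 := by
        intro t y
        simp only [hρd, hdist]
      simp only [e]
      refine (hCf d hd1 n m a b f R₀ hs hf hR₀ hR₀0).trans ?_
      gcongr
      exact hKd d hd1 hdn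
    have a2 := h1 A f hA hf
    have hpt : ∀ᵐ x : E n, ‖S f (R x) x‖ₑ ^ 2 ≤ 2 * ‖S f (ρ x) x‖ₑ ^ 2 +
        2 * (⨆ (R : ℝ) (R' : ℝ) (_ : 0 < R ∧ 0 < R' ∧ |R - R'| ≤ A / ‖x‖),
          ‖S f R x - S f R' x‖ₑ) ^ 2 := by
      have hne : ∀ᵐ x : E n, x ≠ 0 := by
        rw [ae_iff]
        simp only [not_not]
        have : {x : E n | x = 0} = {0} := by
          ext x
          simp
        rw [this]
        exact measure_singleton 0
      filter_upwards [hne] with x hx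
      have b1 : ‖S f (R x) x - S f (ρ x) x‖ₑ ≤
          ⨆ (R : ℝ) (R' : ℝ) (_ : 0 < R ∧ 0 < R' ∧ |R - R'| ≤ A / ‖x‖),
            ‖S f R x - S f R' x‖ₑ :=
        le_iSup_of_le (R x) (le_iSup_of_le (ρ x)
          (le_iSup_of_le ⟨hR0 x, hρ0 x, hosc x hx⟩ le_rfl))
      have b2 : ‖S f (R x) x‖ₑ ≤ ‖S f (ρ x) x‖ₑ + ‖S f (R x) x - S f (ρ x) x‖ₑ := by
        have := enorm_add_le (S f (ρ x) x) (S f (R x) x - S f (ρ x) x)
        rwa [add_sub_cancel] at this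
      refine (pow_le_pow_left' (b2.trans (add_le_add le_rfl b1)) 2).trans ?_
      exact Pool.Agent.CRR.RCH_.sq_add _ _
    have h5 : ∫⁻ x, ‖S f (R x) x‖ₑ ^ 2 ≤
        2 * (∫⁻ x, ‖S f (ρ x) x‖ₑ ^ 2) +
        2 * (∫⁻ x, (⨆ (R : ℝ) (R' : ℝ) (_ : 0 < R ∧ 0 < R' ∧ |R - R'| ≤ A / ‖x‖),
          ‖S f R x - S f R' x‖ₑ) ^ 2) := by
      refine (lintegral_mono_ae hpt).trans ?_
      rw [lintegral_add_left (hm.const_mul 2), lintegral_const_mul' _ _ (by norm_num),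
        lintegral_const_mul' _ _ (by norm_num)]
    refine h5.trans ?_
    set L := ENNReal.ofReal (Real.log (2 + A) ^ 2) with hL
    set N := ∫⁻ x, ‖f x‖ₑ ^ 2 with hN
    have hone : (1 : ℝ≥0∞) ≤ 4 * L := Pool.Agent.CRR.RCH_.one_le_log A hA
    calc 2 * (∫⁻ x, ‖S f (ρ x) x‖ₑ ^ 2) +
        2 * (∫⁻ x, (⨆ (R : ℝ) (R' : ℝ) (_ : 0 < R ∧ 0 < R' ∧ |R - R'| ≤ A / ‖x‖),
          ‖S f R x - S f R' x‖ₑ) ^ 2) ≤ 2 * (K * N) + 2 * (C2 * L * N) := by gcongr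
      _ ≤ 2 * (K * N) * (4 * L) + 2 * (C2 * L * N) :=
          add_le_add (le_mul_of_one_le_right' hone) le_rfl
      _ = ((8 * K + 2 * C2 : ℝ≥0) : ℝ≥0∞) * L * N := by
          push_cast
          ring
  refine ⟨8 * K + 2 * C2, ?_⟩
  intro W p A f R R₀ hW hA hf _ hR0 hR₀ hR₀0 hosc
  have key := core W A (fun z => f (z + p)) (fun x => R (x + p)) R₀ hW hA (nice_shift hf p)
    (fun x => hR0 _) hR₀ hR₀0 (by
      intro x hx
      have := hosc (x + p) (by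
        intro h
        exact hx (by simpa using h))
      rwa [add_sub_cancel_right] at this)
  have e1 : ∫⁻ x, ‖S (fun z => f (z + p)) (R (x + p)) x‖ₑ ^ 2 = ∫⁻ x, ‖S f (R x) x‖ₑ ^ 2 := by
    rw [← lintegral_add_right_eq_self (fun x => ‖S f (R x) x‖ₑ ^ 2) p]
    refine lintegral_congr fun x => ?_
    rw [h3.2 n f p (R (x + p)) x hf.int]
  have e2 : ∫⁻ x, ‖f (x + p)‖ₑ ^ 2 = ∫⁻ x, ‖f x‖ₑ ^ 2 :=
    lintegral_add_right_eq_self (fun x => ‖f x‖ₑ ^ 2) p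
  rw [e1, e2] at key
  exact key

end Pool.Agent.CYL
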