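import Pool.Agent.CYL.Targets

set_option autoImplicit false

/-!
# CYL: Carleson's theorem for symmetric intervals (LI1)
-/

namespace Pool.Agent.CYL

open MeasureTheory FourierTransform Set Filter Topology
open scoped ENNReal NNReal ComplexConjugate
open Pool.Agent.MBS (E ex S)
open Pool.Agent.CAR (e1)
open Pool.Agent.CRN (Nice T_CARLS)

namespace LI1_

theorem cont_fourier {f : E 1 → ℂ} (hf : Integrable f) : Continuous (𝓕 f) :=
  VectorFourier.fourierIntegral_continuous Real.continuous_fourierChar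
    (by exact continuous_inner) hf

theorem e1_norm (x : ℝ) : ‖e1 x‖ = 1 := by
  unfold e1
  rw [show (2 * Real.pi * Complex.I * (x : ℂ) : ℂ) = ((2 * Real.pi * x : ℝ) : ℂ) * Complex.I
    from by push_cast; ring]
  exact Complex.norm_exp_ofReal_mul_I _

theorem lint_of_eLpNorm {u v : E 1 → ℂ} (h : eLpNorm u 2 = eLpNorm v 2) :
    ∫⁻ x, ‖u x‖ₑ ^ 2 = ∫⁻ x, ‖v x‖ₑ ^ 2 := by
  rw [eLpNorm_eq_lintegral_rpow_enorm_toReal (by norm_num) (by norm_num),
    eLpNorm_eq_lintegral_rpow_enorm_toReal (by norm_num) (by norm_num)] at h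
  have h2 := congrArg (fun t => t ^ (2 : ℝ)) h
  simp only [← ENNReal.rpow_mul] at h2
  simpa using h2

/-- `E 1` and the line -/
noncomputable def Ph : E 1 ≃ᵐ ℝ :=
  (MeasurableEquiv.toLp 2 (Fin 1 → ℝ)).symm.trans (MeasurableEquiv.funUnique (Fin 1) ℝ)

theorem Ph_apply (x : E 1) : Ph x = x 0 := rfl

theorem Ph_mp : MeasurePreserving (Ph : E 1 → ℝ) volume volume :=
  (volume_preserving_funUnique (Fin 1) ℝ).comp
    (EuclideanSpace.volume_preserving_symm_measurableEquiv_toLp (Fin 1))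

/-- the inverse map -/
noncomputable def Q (u : ℝ) : E 1 := WithLp.toLp 2 (fun _ => u)

theorem Q_apply (u : ℝ) : (Q u) 0 = u := rfl

theorem Q_Ph (x : E 1) : Q (x 0) = x := by
  ext i
  fin_cases i
  rfl

theorem Q_cont : Continuous Q := by
  unfold Q
  exact (PiLp.continuous_toLp 2 _).comp (continuous_pi (fun _ => continuous_id))

theorem ex_Q (x : E 1) (u : ℝ) : ex x (Q u) = e1 (x 0 * u) := by
  unfold ex e1
  have h1 : inner ℝ x (Q u) = x 0 * u := by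
    rw [PiLp.inner_apply]
    simp [Q, mul_comm]
  rw [h1]

theorem norm_E1 (x : E 1) : ‖x‖ = |x 0| := by
  rw [EuclideanSpace.norm_eq]
  simp [Real.sqrt_sq_eq_abs]

/-- the transform on the line -/
theorem S_eq (f : E 1 → ℂ) (r : ℝ) (x : E 1) :
    S f r x = ∫ u in Icc (-r) r, 𝓕 f (Q u) * e1 (x 0 * u) := by
  unfold S
  have h1 := Ph_mp.setIntegral_preimage_emb Ph.measurableEmbedding
    (fun u => 𝓕 f (Q u) * e1 (x 0 * u)) (Icc (-r) r)
  rw [← h1]
  have h2 : (Ph : E 1 → ℝ) ⁻¹' Icc (-r) r = Metric.closedBall (0 : E 1) r := by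
    ext y
    rw [mem_preimage, Ph_apply, Metric.mem_closedBall, dist_zero_right, norm_E1, mem_Icc,
      abs_le]
  rw [h2]
  refine integral_congr_ae (Eventually.of_forall (fun y => ?_))
  beta_reduce
  rw [Ph_apply, Q_Ph, ← ex_Q, Q_Ph]

/-- the cut off transform -/
noncomputable def gN (f : E 1 → ℂ) (N : ℕ) : ℝ → ℂ :=
  (Icc (-(N : ℝ)) N).indicator (fun u => 𝓕 f (Q u))

theorem half (f : E 1 → ℂ) (hf : Integrable f) (N : ℕ) (r t : ℝ) (hr : 0 < r) (hN : r ≤ N) :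
    ‖∫ u in Icc (-r) r, 𝓕 f (Q u) * e1 (t * u)‖ₑ ≤
      2 * ⨆ m : ℝ, ‖∫ ξ in Iio m, gN f N ξ * e1 (t * ξ)‖ₑ := by
  have hc : Continuous (fun u => 𝓕 f (Q u)) := (cont_fourier hf).comp Q_cont
  have he : Continuous (fun u : ℝ => e1 (t * u)) := by
    unfold e1
    fun_prop
  have hi : Integrable (fun ξ => gN f N ξ * e1 (t * ξ)) := by
    have h1 : (fun ξ => gN f N ξ * e1 (t * ξ)) =
        (Icc (-(N : ℝ)) N).indicator (fun u => 𝓕 f (Q u) * e1 (t * u)) := by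
      funext ξ
      unfold gN
      by_cases h : ξ ∈ Icc (-(N : ℝ)) N
      · rw [indicator_of_mem h, indicator_of_mem h]
      · rw [indicator_of_notMem h, indicator_of_notMem h, zero_mul]
    rw [h1, integrable_indicator_iff measurableSet_Icc]
    exact ((hc.mul he).continuousOn).integrableOn_Icc
  have h2 : ∫ u in Icc (-r) r, 𝓕 f (Q u) * e1 (t * u) =
      (∫ ξ in Iio r, gN f N ξ * e1 (t * ξ)) - ∫ ξ in Iio (-r), gN f N ξ * e1 (t * ξ) := by
    have h3 : Iio r = Iio (-r) ∪ Ico (-r) r := by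
      rw [Iio_union_Ico_eq_Iio (by linarith)]
    have h4 : Disjoint (Iio (-r)) (Ico (-r) r) := by
      rw [Set.disjoint_left]
      intro y hy1 hy2
      exact absurd hy1 (not_lt.2 hy2.1)
    rw [h3, setIntegral_union h4 measurableSet_Ico hi.integrableOn hi.integrableOn,
      add_sub_cancel_left, integral_Icc_eq_integral_Ico]
    refine setIntegral_congr_fun measurableSet_Ico (fun u hu => ?_)
    have h5 : u ∈ Icc (-(N : ℝ)) N := ⟨by linarith [hu.1], by linarith [hu.2]⟩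
    beta_reduce
    unfold gN
    rw [indicator_of_mem h5]
  rw [h2, two_mul]
  refine (enorm_sub_le).trans (add_le_add ?_ ?_)
  · exact le_iSup (fun m : ℝ => ‖∫ ξ in Iio m, gN f N ξ * e1 (t * ξ)‖ₑ) r
  · exact le_iSup (fun m : ℝ => ‖∫ ξ in Iio m, gN f N ξ * e1 (t * ξ)‖ₑ) (-r)

end LI1_

open LI1_ in
theorem p_LI1 : T_LI1 := by
  rintro ⟨C, hC⟩
  refine ⟨4 * C, ?_⟩
  intro f ρ hf hρ hpos
  have hc : Continuous (fun u => 𝓕 f (Q u)) := (cont_fourier hf.int).comp Q_cont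
  have hpl : ∫⁻ x, ‖𝓕 f x‖ₑ ^ 2 = ∫⁻ x, ‖f x‖ₑ ^ 2 :=
    lint_of_eLpNorm (Pool.Agent.H25.Plancherel.eLpNorm_fourier_eq hf.int hf.sq)
  have hN : ∀ N : ℕ, ∫⁻ x in {x | ρ x ≤ N}, ‖S f (ρ x) x‖ₑ ^ 2 ≤
      (4 * C : ℝ≥0) * ∫⁻ x, ‖f x‖ₑ ^ 2 := by
    intro N
    have hg1 : Measurable (gN f N) := hc.measurable.indicator measurableSet_Icc
    have hg2 : Integrable (gN f N) := by
      unfold gN
      rw [integrable_indicator_iff measurableSet_Icc]
      exact hc.continuousOn.integrableOn_Icc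
    have hg3 : Integrable (fun ξ => ‖gN f N ξ‖ ^ 2) := by
      have h1 : (fun ξ => ‖gN f N ξ‖ ^ 2) =
          (Icc (-(N : ℝ)) N).indicator (fun u => ‖𝓕 f (Q u)‖ ^ 2) := by
        funext ξ
        unfold gN
        by_cases h : ξ ∈ Icc (-(N : ℝ)) N
        · rw [indicator_of_mem h, indicator_of_mem h]
        · rw [indicator_of_notMem h, indicator_of_notMem h, norm_zero]
          norm_num
      rw [h1, integrable_indicator_iff measurableSet_Icc]
      exact (hc.norm.pow 2).continuousOn.integrableOn_Icc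
    have h1 := hC (gN f N) hg1 hg2 hg3
    have h2 : ∫⁻ ξ, ‖gN f N ξ‖ₑ ^ 2 ≤ ∫⁻ x, ‖f x‖ₑ ^ 2 := by
      calc ∫⁻ ξ, ‖gN f N ξ‖ₑ ^ 2 ≤ ∫⁻ ξ, ‖𝓕 f (Q ξ)‖ₑ ^ 2 := by
            refine lintegral_mono (fun ξ => ?_)
            have h3 : ‖gN f N ξ‖ₑ ≤ ‖𝓕 f (Q ξ)‖ₑ := by
              unfold gN
              by_cases h : ξ ∈ Icc (-(N : ℝ)) N
              · rw [indicator_of_mem h]
              · rw [indicator_of_notMem h, enorm_zero]
                exact zero_le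
            gcongr
        _ = ∫⁻ x : E 1, ‖𝓕 f x‖ₑ ^ 2 := by
            rw [← Ph_mp.lintegral_comp_emb Ph.measurableEmbedding (fun ξ => ‖𝓕 f (Q ξ)‖ₑ ^ 2)]
            refine lintegral_congr (fun x => ?_)
            rw [Ph_apply, Q_Ph]
        _ = _ := hpl
    calc ∫⁻ x in {x | ρ x ≤ N}, ‖S f (ρ x) x‖ₑ ^ 2
        ≤ ∫⁻ x in {x | ρ x ≤ N},
            (2 * ⨆ m : ℝ, ‖∫ ξ in Iio m, gN f N ξ * e1 (Ph x * ξ)‖ₑ) ^ 2 := by
          refine setLIntegral_mono' (measurableSet_le hρ measurable_const) (fun x hx => ?_)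
          rw [S_eq, Ph_apply]
          gcongr
          exact half f hf.int N (ρ x) (x 0) (hpos x) hx
      _ ≤ ∫⁻ x : E 1, (2 * ⨆ m : ℝ, ‖∫ ξ in Iio m, gN f N ξ * e1 (Ph x * ξ)‖ₑ) ^ 2 :=
          setLIntegral_le_lintegral _ _
      _ = ∫⁻ t : ℝ, (2 * ⨆ m : ℝ, ‖∫ ξ in Iio m, gN f N ξ * e1 (t * ξ)‖ₑ) ^ 2 :=
          Ph_mp.lintegral_comp_emb Ph.measurableEmbedding
            (fun t => (2 * ⨆ m : ℝ, ‖∫ ξ in Iio m, gN f N ξ * e1 (t * ξ)‖ₑ) ^ 2)
      _ = 4 * ∫⁻ t : ℝ, (⨆ m : ℝ, ‖∫ ξ in Iio m, gN f N ξ * e1 (t * ξ)‖ₑ) ^ 2 := by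
          rw [← lintegral_const_mul' _ _ (by norm_num)]
          refine lintegral_congr (fun t => ?_)
          rw [mul_pow]
          norm_num
      _ ≤ 4 * (C * ∫⁻ x, ‖f x‖ₑ ^ 2) := by
          gcongr
          refine h1.trans ?_
          gcongr
      _ = _ := by
          push_cast
          ring
  have hU : (⋃ N : ℕ, {x : E 1 | ρ x ≤ N}) = univ := by
    rw [eq_univ_iff_forall]
    intro x
    obtain ⟨N, hN⟩ := exists_nat_ge (ρ x)
    exact mem_iUnion.2 ⟨N, hN⟩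
  have hdir : Directed (· ⊆ ·) (fun N : ℕ => {x : E 1 | ρ x ≤ N}) := by
    refine (monotone_nat_of_le_succ (fun N => ?_)).directed_le
    intro x hx
    have h1 : ρ x ≤ N := hx
    show ρ x ≤ ((N + 1 : ℕ) : ℝ)
    push_cast
    linarith
  rw [← setLIntegral_univ, ← hU, setLIntegral_iUnion_of_directed _ hdir]
  exact iSup_le hN

end Pool.Agent.CYL
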