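import Pool.Agent.CYL.Targets

set_option autoImplicit false

/-!
# CYL, target MEA (helper66): joint measurability of the slices
-/

namespace Pool.Agent.CYL

open MeasureTheory FourierTransform Set Filter Topology
open scoped ENNReal NNReal ComplexConjugate
open Pool.Agent.MBS (E ex S)
open Pool.Agent.CRN (Nice)

namespace MEA_

theorem cont_ex {d : ℕ} : Continuous (fun q : E d × E d => ex q.1 q.2) := by
  unfold Pool.Agent.MBS.ex
  fun_prop

theorem cont_fourier {n : ℕ} {f : E n → ℂ} (hf : Integrable f) : Continuous (𝓕 f) :=
  VectorFourier.fourierIntegral_continuous Real.continuous_fourierChar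
    (by exact continuous_inner) hf

end MEA_

open MEA_ in
theorem p_MEA : T_MEA := by
  intro n d m a b f hf ρ hρ
  have hF := cont_fourier hf.int
  set T : Set ((E m × E d) × E d) := {p | ‖p.2‖ ≤ ρ p.1} with hT
  have hTm : MeasurableSet T :=
    measurableSet_le (measurable_norm.comp measurable_snd) (hρ.comp measurable_fst)
  have h1 : Continuous (fun p : (E m × E d) × E d => 𝓕 f (a p.2 + b p.1.1) * ex p.1.2 p.2) := by
    refine Continuous.mul (hF.comp ?_) (cont_ex.comp (f := fun p : (E m × E d) × E d =>
      (p.1.2, p.2)) ?_)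
    · exact (a.continuous.comp continuous_snd).add
        (b.continuous.comp (continuous_fst.comp continuous_fst))
    · exact (continuous_snd.comp continuous_fst).prodMk continuous_snd
  have h2 : StronglyMeasurable
      (T.indicator (fun p : (E m × E d) × E d => 𝓕 f (a p.2 + b p.1.1) * ex p.1.2 p.2)) :=
    (h1.measurable.indicator hTm).stronglyMeasurable
  have h3 := h2.integral_prod_right' (ν := (volume : Measure (E d)))
  have h6 : (fun q : E m × E d => GS a b f (ρ q) q.1 q.2) = fun q => ∫ τ,
      T.indicator (fun p : (E m × E d) × E d => 𝓕 f (a p.2 + b p.1.1) * ex p.1.2 p.2) (q, τ) := ?_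
  · rw [h6]
    exact h3.measurable
  funext q
  rw [GS, ← integral_indicator measurableSet_closedBall]
  refine integral_congr_ae (Eventually.of_forall fun τ => ?_)
  by_cases h : ‖τ‖ ≤ ρ q
  · have h4 : (q, τ) ∈ T := h
    have h5 : τ ∈ Metric.closedBall (0 : E d) (ρ q) := mem_closedBall_zero_iff.2 h
    simp only
    rw [indicator_of_mem h4, indicator_of_mem h5]
  · have h4 : (q, τ) ∉ T := h
    have h5 : τ ∉ Metric.closedBall (0 : E d) (ρ q) := fun h6 => h (mem_closedBall_zero_iff.1 h6)
    simp only
    rw [indicator_of_notMem h4, indicator_of_notMem h5]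

end Pool.Agent.CYL
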