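import Pool.Agent.CYL.Targets
import Pool.Agent.H25.Plancherel

/-!
# CYL: the Fourier transform in one group of variables
-/

set_option autoImplicit false

namespace Pool.Agent.CYL

open MeasureTheory FourierTransform Set Filter Topology
open scoped ENNReal NNReal ComplexConjugate
open Pool.Agent.MBS (E ex S)
open Pool.Agent.CRN (Nice)

namespace PFT_

theorem sq_eLp {k : ℕ} (f : E k → ℂ) : ∫⁻ x, ‖f x‖ₑ ^ 2 = eLpNorm f 2 ^ 2 := by
  have h := eLpNorm_nnreal_pow_eq_lintegral (f := f) (μ := (volume : Measure (E k)))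
    (p := (2 : ℝ≥0)) (by norm_num)
  have h2 : (((2 : ℝ≥0)) : ℝ) = ((2 : ℕ) : ℝ) := by norm_num
  have h3 : (((2 : ℝ≥0)) : ℝ≥0∞) = 2 := by norm_num
  rw [h2, h3, ENNReal.rpow_natCast] at h
  rw [h]
  refine lintegral_congr fun x => ?_
  rw [ENNReal.rpow_natCast]

theorem memLp_of {k : ℕ} {f : E k → ℂ} (hf : Measurable f) (h : ∫⁻ x, ‖f x‖ₑ ^ 2 < ⊤) :
    MemLp f 2 := by
  refine ⟨hf.aestronglyMeasurable, ?_⟩
  rw [sq_eLp] at h
  exact (ENNReal.pow_lt_top_iff.1 h).resolve_right (by norm_num)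

theorem plan {k : ℕ} {f : E k → ℂ} (h1 : Integrable f) (h2 : MemLp f 2) :
    ∫⁻ x, ‖𝓕 f x‖ₑ ^ 2 = ∫⁻ x, ‖f x‖ₑ ^ 2 := by
  rw [sq_eLp, sq_eLp, H25.Plancherel.eLpNorm_fourier_eq h1 h2]

theorem fourier_ex {k : ℕ} (f : E k → ℂ) (ξ : E k) : 𝓕 f ξ = ∫ x, f x * ex x (-ξ) := by
  rw [Real.fourier_eq']
  refine integral_congr_ae (Filter.Eventually.of_forall fun x => ?_)
  simp only [ex, inner_neg_right, smul_eq_mul]
  rw [mul_comm]
  congr 2
  push_cast
  ring

theorem norm_ex {k : ℕ} (x ξ : E k) : ‖ex x ξ‖ = 1 := by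
  unfold ex
  have h : (2 * Real.pi * Complex.I * ((inner ℝ x ξ : ℝ) : ℂ)) =
      ((2 * Real.pi * inner ℝ x ξ : ℝ) : ℂ) * Complex.I := by
    push_cast
    ring
  rw [h]
  exact Complex.norm_exp_ofReal_mul_I _

theorem ex_cont (k : ℕ) : Continuous fun p : E k × E k => ex p.1 p.2 := by
  unfold ex
  have h : Continuous fun p : E k × E k => (inner ℝ p.1 p.2 : ℝ) := by fun_prop
  exact Complex.continuous_exp.comp (continuous_const.mul (Complex.continuous_ofReal.comp h))

theorem meas_int {n d m : ℕ} (a : E d →ₗᵢ[ℝ] E n) (b : E m →ₗᵢ[ℝ] E n) {f : E n → ℂ}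
    (hf : Measurable f) :
    Measurable (fun p : (E m × E d) × E m => f (a p.1.2 + b p.2) * ex p.2 (-p.1.1)) := by
  have h1 : Continuous fun p : (E m × E d) × E m => a p.1.2 + b p.2 :=
    (a.continuous.comp (continuous_snd.comp continuous_fst)).add (b.continuous.comp continuous_snd)
  have h2 : Continuous fun p : (E m × E d) × E m => ex p.2 (-p.1.1) :=
    (ex_cont m).comp (continuous_snd.prodMk (continuous_fst.comp continuous_fst).neg)
  exact (hf.comp h1.measurable).mul h2.measurable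

theorem meas_PF {n d m : ℕ} (a : E d →ₗᵢ[ℝ] E n) (b : E m →ₗᵢ[ℝ] E n) {f : E n → ℂ}
    (hf : Measurable f) : Measurable (fun q : E m × E d => PF a b f q.1 q.2) := by
  have h := (meas_int a b hf).stronglyMeasurable.integral_prod_right' (ν := volume)
  exact h.measurable

end PFT_

open PFT_ in
/-- PFT. -/
theorem p_PFT (h1 : T_SPL) : T_PFT := by
  intro n d m a b f hs hf
  obtain ⟨-, hli, hin, hex, -⟩ := h1 n d m a b hs
  have hM := meas_PF a b hf.meas
  have hMη : ∀ η : E m, Measurable (PF a b f η) := fun η => hM.comp measurable_prodMk_left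
  have hfe : Measurable fun x => ‖f x‖ₑ := hf.meas.enorm
  -- `L¹`
  have hI1 : ∫⁻ t : E d, ∫⁻ y : E m, ‖f (a t + b y)‖ₑ < ⊤ := by
    rw [← hli _ hfe]
    exact hf.int.2
  have hint : ∀ η : E m, Integrable (PF a b f η) := by
    intro η
    refine ⟨(hMη η).aestronglyMeasurable, ?_⟩
    refine lt_of_le_of_lt (lintegral_mono fun t => ?_) hI1
    refine (enorm_integral_le_lintegral_enorm _).trans (lintegral_mono fun y => ?_)
    rw [enorm_mul]
    have : ‖ex y (-η)‖ₑ = 1 := by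
      rw [← ofReal_norm, norm_ex, ENNReal.ofReal_one]
    rw [this, mul_one]
  -- the transform
  have hfour : ∀ (η : E m) (τ : E d), 𝓕 (PF a b f η) τ = 𝓕 f (a τ + b η) := by
    intro η τ
    rw [fourier_ex, fourier_ex]
    have hneg : -(a τ + b η) = a (-τ) + b (-η) := by
      rw [map_neg, map_neg, neg_add]
    have hF : Integrable fun x : E n => f x * ex x (-(a τ + b η)) := by
      refine hf.int.mul_bdd (c := 1) ?_ (Filter.Eventually.of_forall fun x => (norm_ex _ _).le)
      exact ((ex_cont n).comp (continuous_id.prodMk continuous_const)).aestronglyMeasurable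
    rw [(hin _ hF).2]
    refine integral_congr_ae (Filter.Eventually.of_forall fun t => ?_)
    simp only
    unfold PF
    rw [← integral_mul_const]
    refine integral_congr_ae (Filter.Eventually.of_forall fun y => ?_)
    simp only
    rw [hneg, hex]
    ring
  -- `L²`
  have hsq : Measurable fun x => ‖f x‖ₑ ^ 2 := hfe.pow_const 2
  have hfin : ∫⁻ x, ‖f x‖ₑ ^ 2 < ⊤ := by
    rw [sq_eLp]
    exact ENNReal.pow_lt_top hf.sq.2
  have hpl : ∀ᵐ t : E d, ∫⁻ η : E m, ‖PF a b f η t‖ₑ ^ 2 = ∫⁻ y : E m, ‖f (a t + b y)‖ₑ ^ 2 := by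
    have hA := (hin f hf.int).1.prod_right_ae
    have hB : ∀ᵐ t : E d, ∫⁻ y : E m, ‖f (a t + b y)‖ₑ ^ 2 < ⊤ := by
      refine ae_lt_top ?_ ?_
      · have hc : Continuous fun p : E d × E m => a p.1 + b p.2 :=
          (a.continuous.comp continuous_fst).add (b.continuous.comp continuous_snd)
        exact Measurable.lintegral_prod_right' (f := fun p : E d × E m => ‖f (a p.1 + b p.2)‖ₑ ^ 2)
          (hsq.comp hc.measurable)
      · rw [← hli _ hsq]
        exact hfin.ne
    filter_upwards [hA, hB] with t ht1 ht2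
    have hg : Measurable fun y : E m => f (a t + b y) :=
      hf.meas.comp (measurable_const.add b.continuous.measurable)
    rw [← plan ht1 (memLp_of hg ht2)]
    refine lintegral_congr fun η => ?_
    rw [fourier_ex]
    rfl
  have hMe : Measurable fun q : E m × E d => ‖PF a b f q.1 q.2‖ₑ ^ 2 := hM.enorm.pow_const 2
  have hL2 : ∫⁻ η, ∫⁻ t, ‖PF a b f η t‖ₑ ^ 2 = ∫⁻ x, ‖f x‖ₑ ^ 2 := by
    rw [lintegral_lintegral_swap hMe.aemeasurable, hli _ hsq]
    exact lintegral_congr_ae hpl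
  refine ⟨hM, ?_, hL2⟩
  have hC : ∀ᵐ η : E m, ∫⁻ t, ‖PF a b f η t‖ₑ ^ 2 < ⊤ := by
    refine ae_lt_top (Measurable.lintegral_prod_right' hMe) ?_
    rw [hL2]
    exact hfin.ne
  filter_upwards [hC] with η hη
  refine ⟨⟨hMη η, hint η, memLp_of (hMη η) hη⟩, fun ρ t => ?_⟩
  unfold S GS
  refine integral_congr_ae (Filter.Eventually.of_forall fun ξ => ?_)
  simp only
  rw [hfour]

end Pool.Agent.CYL
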