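import Pool.Agent.CYL.Targets
import Pool.Agent.CYL.P_PFT
import Pool.Agent.CYL.P_MEA

set_option autoImplicit false

/-!
# CYL, target PLY: Plancherel in the second group of variables
-/

namespace Pool.Agent.CYL

open MeasureTheory FourierTransform Set Filter Topology
open scoped ENNReal NNReal ComplexConjugate
open Pool.Agent.MBS (E ex S)
open Pool.Agent.CRN (Nice)

namespace PLY_

open PFT_ (plan fourier_ex norm_ex ex_cont)
open MEA_ (cont_fourier)

/-- `𝓕 f` is bounded -/
theorem fb {n : ℕ} (f : E n → ℂ) (ξ : E n) : ‖𝓕 f ξ‖ ≤ ∫ x, ‖f x‖ := by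
  rw [fourier_ex]
  refine (norm_integral_le_integral_norm _).trans (le_of_eq ?_)
  refine integral_congr_ae (Eventually.of_forall fun x => ?_)
  simp only
  rw [norm_mul, norm_ex, mul_one]

/-- bounded slices -/
theorem gb {n d m : ℕ} (a : E d →ₗᵢ[ℝ] E n) (b : E m →ₗᵢ[ℝ] E n) (f : E n → ℂ) {ρ R : ℝ}
    (h : ρ ≤ R) (η : E m) (t : E d) :
    ‖GS a b f ρ η t‖ ≤ (∫ x, ‖f x‖) * (volume (Metric.closedBall (0 : E d) R)).toReal := by
  unfold GS
  have hM : 0 ≤ ∫ x, ‖f x‖ := integral_nonneg fun x => norm_nonneg _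
  have h1 := norm_setIntegral_le_of_norm_le_const (μ := (volume : Measure (E d)))
    (s := Metric.closedBall (0 : E d) ρ) (C := ∫ x, ‖f x‖)
    (f := fun τ => 𝓕 f (a τ + b η) * ex t τ) measure_closedBall_lt_top
    (fun τ _ => by
      rw [norm_mul, norm_ex, mul_one]
      exact fb f _)
  refine h1.trans (mul_le_mul_of_nonneg_left ?_ hM)
  exact ENNReal.toReal_mono measure_closedBall_lt_top.ne
    (measure_mono (Metric.closedBall_subset_closedBall h))

/-- the function of `η` -/
noncomputable def GG {n d m : ℕ} (a : E d →ₗᵢ[ℝ] E n) (b : E m →ₗᵢ[ℝ] E n) (f : E n → ℂ)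
    (R : ℝ) (t : E d) : E m → ℂ :=
  (Metric.closedBall (0 : E m) R).indicator
    fun η => GS a b f (Real.sqrt (R ^ 2 - ‖η‖ ^ 2)) η t

theorem GG_memLp {n d m : ℕ} (h2 : T_MEA) (a : E d →ₗᵢ[ℝ] E n) (b : E m →ₗᵢ[ℝ] E n)
    {f : E n → ℂ} (hf : Nice f) {R : ℝ} (hR : 0 < R) (t : E d) (q : ℝ≥0∞) :
    MemLp (GG a b f R t) q := by
  unfold GG
  rw [memLp_indicator_iff_restrict measurableSet_closedBall]
  have hfin : IsFiniteMeasure ((volume : Measure (E m)).restrict (Metric.closedBall 0 R)) :=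
    ⟨by
      rw [Measure.restrict_apply_univ]
      exact measure_closedBall_lt_top⟩
  have hρ : Measurable fun p : E m × E d => Real.sqrt (R ^ 2 - ‖p.1‖ ^ 2) := by fun_prop
  have hm := (h2 n d m a b f hf _ hρ).comp (measurable_prodMk_right (y := t))
  refine MemLp.of_bound hm.aestronglyMeasurable
    ((∫ x, ‖f x‖) * (volume (Metric.closedBall (0 : E d) R)).toReal)
    (Eventually.of_forall fun η => gb a b f ?_ η t)
  refine (Real.sqrt_le_sqrt (sub_le_self _ (sq_nonneg _))).trans ?_
  rw [Real.sqrt_sq hR.le]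

/-- the formula for `S` -/
theorem S_eq {n d m : ℕ} (h1 : T_SPL) (a : E d →ₗᵢ[ℝ] E n) (b : E m →ₗᵢ[ℝ] E n)
    {f : E n → ℂ} (hs : Spl a b) (hf : Nice f) {R : ℝ} (hR : 0 < R) (t : E d) (y : E m) :
    S f R (a t + b y) = ∫ η, GG a b f R t η * ex y η := by
  obtain ⟨-, -, hin, hex, hno⟩ := h1 n d m a b hs
  set F : E n → ℂ := (Metric.closedBall (0 : E n) R).indicator
    fun ξ => 𝓕 f ξ * ex (a t + b y) ξ with hF
  have hc : Continuous fun ξ : E n => 𝓕 f ξ * ex (a t + b y) ξ :=
    (cont_fourier hf.int).mul ((ex_cont n).comp (continuous_const.prodMk continuous_id))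
  have hFi : Integrable F := by
    rw [hF, integrable_indicator_iff measurableSet_closedBall]
    exact hc.continuousOn.integrableOn_compact (isCompact_closedBall _ _)
  obtain ⟨g1, g2⟩ := hin F hFi
  have e0 : S f R (a t + b y) = ∫ x, F x := by
    unfold S
    rw [hF, integral_indicator measurableSet_closedBall]
  rw [e0, g2, integral_integral_swap (f := fun (τ : E d) (η : E m) => F (a τ + b η)) g1]
  refine integral_congr_ae (Eventually.of_forall fun η => ?_)
  simp only
  unfold GG
  have hsq : ∀ τ : E d, a τ + b η ∈ Metric.closedBall (0 : E n) R ↔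
      ‖τ‖ ^ 2 + ‖η‖ ^ 2 ≤ R ^ 2 := by
    intro τ
    rw [mem_closedBall_zero_iff, ← abs_of_nonneg (norm_nonneg (a τ + b η)), ← hno,
      sq_le_sq, abs_of_pos hR]
  by_cases hη : η ∈ Metric.closedBall (0 : E m) R
  · rw [indicator_of_mem hη]
    rw [mem_closedBall_zero_iff] at hη
    unfold GS
    rw [← integral_indicator measurableSet_closedBall, ← integral_mul_const]
    refine integral_congr_ae (Eventually.of_forall fun τ => ?_)
    simp only
    have h0 : 0 ≤ R ^ 2 - ‖η‖ ^ 2 := by nlinarith [norm_nonneg η]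
    have hiff : τ ∈ Metric.closedBall (0 : E d) (Real.sqrt (R ^ 2 - ‖η‖ ^ 2)) ↔
        a τ + b η ∈ Metric.closedBall (0 : E n) R := by
      rw [hsq, mem_closedBall_zero_iff, Real.le_sqrt (norm_nonneg _) h0]
      constructor
      · intro h
        linarith
      · intro h
        linarith
    by_cases hτ : a τ + b η ∈ Metric.closedBall (0 : E n) R
    · rw [indicator_of_mem (hiff.2 hτ), hF, indicator_of_mem hτ, hex]
      ring
    · rw [indicator_of_notMem (fun h => hτ (hiff.1 h)), hF, indicator_of_notMem hτ, zero_mul]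
  · rw [indicator_of_notMem hη, zero_mul]
    rw [mem_closedBall_zero_iff, not_le] at hη
    refine (integral_congr_ae (Eventually.of_forall fun τ => ?_)).trans (integral_zero _ _)
    rw [hF, indicator_of_notMem]
    rw [hsq]
    nlinarith [norm_nonneg η, sq_nonneg ‖τ‖]

end PLY_

open PLY_ in
theorem p_PLY (h1 : T_SPL) (h2 : T_MEA) : T_PLY := by
  intro n d m a b f hs hf R t hR
  have hG1 : Integrable (GG a b f R t) :=
    memLp_one_iff_integrable.1 (GG_memLp (m := m) h2 a b hf hR t 1)
  have hG2 : MemLp (GG a b f R t) 2 := GG_memLp (m := m) h2 a b hf hR t 2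
  have e1' : ∀ y : E m, S f R (a t + b y) = 𝓕 (GG a b f R t) (-y) := by
    intro y
    rw [S_eq h1 a b hs hf hR t y, PFT_.fourier_ex]
    refine integral_congr_ae (Eventually.of_forall fun η => ?_)
    simp only
    rw [neg_neg]
    unfold ex
    rw [real_inner_comm]
  simp only [e1']
  rw [lintegral_neg_eq_self (fun y => ‖𝓕 (GG a b f R t) y‖ₑ ^ 2), PFT_.plan hG1 hG2]
  have e2' : ∀ η : E m, ‖GG a b f R t η‖ₑ ^ 2 = (Metric.closedBall (0 : E m) R).indicator
      (fun η => ‖GS a b f (Real.sqrt (R ^ 2 - ‖η‖ ^ 2)) η t‖ₑ ^ 2) η := by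
    intro η
    unfold GG
    by_cases h : η ∈ Metric.closedBall (0 : E m) R
    · rw [indicator_of_mem h, indicator_of_mem h]
    · rw [indicator_of_notMem h, indicator_of_notMem h]
      simp
  simp only [e2']
  rw [lintegral_indicator measurableSet_closedBall]
  refine setLIntegral_congr ?_
  refine (ae_eq_of_subset_of_measure_ge Metric.ball_subset_closedBall ?_
    measurableSet_ball.nullMeasurableSet measure_closedBall_lt_top.ne).symm
  rw [← Metric.ball_union_sphere]
  refine (measure_union_le _ _).trans ?_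
  rw [Measure.addHaar_sphere_of_ne_zero _ _ hR.ne', add_zero]

end Pool.Agent.CYL
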