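import Pool.Agent.CRR.All
import Pool.Agent.CYL.P_SPL
import Pool.Agent.CYL.P_PFT
import Pool.Agent.CYL.P_MEA
import Pool.Agent.CYL.P_PLY
import Pool.Agent.CYL.P_LI1
import Pool.Agent.CYL.P_CYB
import Pool.Agent.CYL.P_GEO
import Pool.Agent.CYL.P_CYL

set_option autoImplicit false

/-!
# CYL: assembly
-/

namespace Pool.Agent.CYL

open MeasureTheory FourierTransform Set Filter Topology
open scoped ENNReal NNReal ComplexConjugate
open Pool.Agent.MBS (E ex S)
open Pool.Agent.CRN (Nice)

theorem q_PLY : T_PLY := p_PLY p_SPL p_MEA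

theorem q_CYB : T_CYB := p_CYB Pool.Agent.CRR.q_RLIN p_LI1 (p_PFT p_SPL) p_MEA q_PLY

/-- radii near a function of the distance to an affine subspace -/
theorem q_CYL : T_CYL := p_CYL Pool.Agent.CRR.q_OSC q_CYB p_GEO p_SPL

end Pool.Agent.CYL
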