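import Pool.Agent.CYL.Targets2

set_option autoImplicit false

/-!
# CYL, block GVM (MP_ee701d_an, helper75): joint measurability of the variation of the slices
-/

namespace Pool.Agent.CYL

open MeasureTheory FourierTransform Set Filter Topology
open scoped ENNReal NNReal ComplexConjugate
open Pool.Agent.MBS (E ex S)
open Pool.Agent.CRN (Nice sg)

namespace GVM_

theorem sg_fin (n : ℕ) : IsFiniteMeasure (sg n) := by
  unfold sg
  infer_instance

theorem norm_ex {d : ℕ} (x ξ : E d) : ‖ex x ξ‖ = 1 := by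
  have h : ex x ξ = Complex.exp (((2 * Real.pi * inner ℝ x ξ : ℝ) : ℂ) * Complex.I) := by
    unfold Pool.Agent.MBS.ex
    congr 1
    push_cast
    ring
  rw [h]
  exact Complex.norm_exp_ofReal_mul_I _

theorem cont_ex {d : ℕ} : Continuous (fun q : E d × E d => ex q.1 q.2) := by
  unfold Pool.Agent.MBS.ex
  fun_prop

theorem cont_fourier {n : ℕ} {f : E n → ℂ} (hf : Integrable f) : Continuous (𝓕 f) :=
  VectorFourier.fourierIntegral_continuous Real.continuous_fourierChar
    (by exact continuous_inner) hf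

variable {n d m : ℕ} {a : E d →ₗᵢ[ℝ] E n} {b : E m →ₗᵢ[ℝ] E n} {f : E n → ℂ}

theorem cont_h (hf : Nice f) (η : E m) (t : E d) :
    Continuous fun τ : E d => 𝓕 f (a τ + b η) * ex t τ := by
  refine Continuous.mul ((cont_fourier hf.int).comp (f := fun τ : E d => a τ + b η) ?_)
    (cont_ex.comp (f := fun τ : E d => (t, τ)) ?_)
  · exact a.continuous.add continuous_const
  · exact continuous_const.prodMk continuous_id

/-- the slices are continuous in the radius -/
theorem GS_cont (hf : Nice f) (hd : 1 ≤ d) (η : E m) (t : E d) :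
    Continuous fun ρ : ℝ => GS a b f ρ η t := by
  have hc := cont_h (a := a) (b := b) hf η t
  have e : (fun ρ : ℝ => GS a b f ρ η t) = fun ρ => ∫ τ : E d,
      (Metric.closedBall (0 : E d) ρ).indicator (fun τ => 𝓕 f (a τ + b η) * ex t τ) τ := by
    funext ρ
    rw [GS, integral_indicator measurableSet_closedBall]
  rw [e, continuous_iff_continuousAt]
  intro ρ₀
  refine continuousAt_of_dominated (bound := (Metric.closedBall (0 : E d) (ρ₀ + 1)).indicator
    fun τ => ‖𝓕 f (a τ + b η) * ex t τ‖) ?_ ?_ ?_ ?_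
  · refine Eventually.of_forall fun ρ => ?_
    exact (hc.measurable.indicator measurableSet_closedBall).aestronglyMeasurable
  · filter_upwards [Iio_mem_nhds (show ρ₀ < ρ₀ + 1 by linarith)] with ρ hρ
    refine Eventually.of_forall fun τ => ?_
    by_cases h : τ ∈ Metric.closedBall (0 : E d) ρ
    · have h2 : τ ∈ Metric.closedBall (0 : E d) (ρ₀ + 1) :=
        Metric.closedBall_subset_closedBall (le_of_lt hρ) h
      rw [indicator_of_mem h, indicator_of_mem h2]
    · rw [indicator_of_notMem h, norm_zero]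
      exact indicator_nonneg (fun _ _ => norm_nonneg _) _
  · rw [integrable_indicator_iff measurableSet_closedBall]
    exact hc.norm.continuousOn.integrableOn_compact (isCompact_closedBall _ _)
  · have : Nonempty (Fin d) := ⟨⟨0, hd⟩⟩
    have hsph : (volume : Measure (E d)) (Metric.sphere (0 : E d) ρ₀) = 0 :=
      Measure.addHaar_sphere _ _ _
    have h1 : ∀ᵐ τ : E d, τ ∉ Metric.sphere (0 : E d) ρ₀ := measure_eq_zero_iff_ae_notMem.1 hsph
    filter_upwards [h1] with τ hτ
    have hne : ‖τ‖ ≠ ρ₀ := fun h => hτ (mem_sphere_zero_iff_norm.2 h)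
    rcases lt_or_gt_of_ne hne with h | h
    · have h2 : ∀ᶠ ρ in 𝓝 ρ₀, (fun _ : ℝ => 𝓕 f (a τ + b η) * ex t τ) ρ =
          (Metric.closedBall (0 : E d) ρ).indicator (fun τ => 𝓕 f (a τ + b η) * ex t τ) τ := by
        filter_upwards [Ioi_mem_nhds h] with ρ hρ
        rw [indicator_of_mem (mem_closedBall_zero_iff.2 (le_of_lt hρ))]
      exact continuousAt_const.congr h2
    · have h2 : ∀ᶠ ρ in 𝓝 ρ₀, (fun _ : ℝ => (0 : ℂ)) ρ =
          (Metric.closedBall (0 : E d) ρ).indicator (fun τ => 𝓕 f (a τ + b η) * ex t τ) τ := by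
        filter_upwards [Iio_mem_nhds h] with ρ hρ
        rw [indicator_of_notMem fun h3 => absurd (mem_closedBall_zero_iff.1 h3) (not_le.2 hρ)]
      exact continuousAt_const.congr h2

/-- the uniform bound -/
noncomputable def BB (a : E d →ₗᵢ[ℝ] E n) (b : E m →ₗᵢ[ℝ] E n) (f : E n → ℂ) (η : E m)
    (R : ℝ) : ℝ≥0∞ := ∫⁻ τ in Metric.closedBall (0 : E d) R, ‖𝓕 f (a τ + b η)‖ₑ

theorem BB_fin (hf : Nice f) (η : E m) (R : ℝ) : BB a b f η R ≠ ⊤ := by
  have hc : Continuous fun τ : E d => 𝓕 f (a τ + b η) :=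
    (cont_fourier hf.int).comp (a.continuous.add continuous_const)
  have h := hc.continuousOn.integrableOn_compact (μ := volume)
    (isCompact_closedBall (0 : E d) R)
  exact h.2.ne

theorem GS_le {ρ R : ℝ} (h : ρ ≤ R) (η : E m) (t : E d) :
    ‖GS a b f ρ η t‖ₑ ≤ BB a b f η R := by
  unfold GS BB
  refine (enorm_integral_le_lintegral_enorm _).trans ?_
  refine (lintegral_mono_set (Metric.closedBall_subset_closedBall h)).trans (le_of_eq ?_)
  refine lintegral_congr fun τ => ?_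
  rw [enorm_mul, ← ofReal_norm (ex t τ), norm_ex, ENNReal.ofReal_one, mul_one]

/-- the square of the distance of two slices on a sphere -/
noncomputable def DD (a : E d →ₗᵢ[ℝ] E n) (b : E m →ₗᵢ[ℝ] E n) (f : E n → ℂ) (p : E m × ℝ)
    (c c' : ℝ) : ℝ≥0∞ :=
  ∫⁻ θ, ‖GS a b f c' p.1 (p.2 • (θ : E d)) - GS a b f c p.1 (p.2 • (θ : E d))‖ₑ ^ 2 ∂(sg d)

theorem meas_pt (hM : T_MEA) (hf : Nice f) (c : ℝ) :
    Measurable fun x : (E m × ℝ) × Metric.sphere (0 : E d) 1 =>
      GS a b f c x.1.1 (x.1.2 • (x.2 : E d)) := by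
  have h := hM n d m a b f hf (fun _ => c) measurable_const
  have h2 : Measurable fun x : (E m × ℝ) × Metric.sphere (0 : E d) 1 =>
      (x.1.1, x.1.2 • (x.2 : E d)) := by fun_prop
  have h3 := h.comp h2
  simpa only [Function.comp_def] using h3

theorem DD_meas (hM : T_MEA) (hf : Nice f) (c c' : ℝ) :
    Measurable fun p : E m × ℝ => DD a b f p c c' := by
  have := sg_fin d
  refine Measurable.lintegral_prod_right'
    (f := fun x : (E m × ℝ) × Metric.sphere (0 : E d) 1 =>
      ‖GS a b f c' x.1.1 (x.1.2 • (x.2 : E d)) - GS a b f c x.1.1 (x.1.2 • (x.2 : E d))‖ₑ ^ 2) ?_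
  exact ((meas_pt hM hf c').sub (meas_pt hM hf c)).enorm.pow_const 2

theorem meas_th (hM : T_MEA) (hf : Nice f) (p : E m × ℝ) (c : ℝ) :
    Measurable fun θ : Metric.sphere (0 : E d) 1 => GS a b f c p.1 (p.2 • (θ : E d)) := by
  have h2 : Measurable fun θ : Metric.sphere (0 : E d) 1 => (p, θ) := measurable_prodMk_left
  have h3 := (meas_pt (a := a) (b := b) hM hf c).comp h2
  simpa only [Function.comp_def] using h3

theorem DD_lim (hM : T_MEA) (hf : Nice f) (hd : 1 ≤ d) (p : E m × ℝ) {c c' : ℕ → ℝ} {x x' : ℝ}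
    (hc : Tendsto c atTop (𝓝 x)) (hc' : Tendsto c' atTop (𝓝 x')) {R : ℝ} (h1 : ∀ k, c k ≤ R)
    (h2 : ∀ k, c' k ≤ R) :
    Tendsto (fun k => DD a b f p (c k) (c' k)) atTop (𝓝 (DD a b f p x x')) := by
  have := sg_fin d
  refine tendsto_lintegral_of_dominated_convergence
    (fun _ => (BB a b f p.1 R + BB a b f p.1 R) ^ 2) ?_ ?_ ?_ ?_
  · intro k
    exact ((meas_th hM hf p (c' k)).sub (meas_th hM hf p (c k))).enorm.pow_const 2
  · intro k
    refine Eventually.of_forall fun θ => ?_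
    simp only
    gcongr
    refine enorm_sub_le.trans (add_le_add (GS_le (h2 k) _ _) (GS_le (h1 k) _ _))
  · rw [lintegral_const]
    refine ENNReal.mul_ne_top (ENNReal.pow_ne_top (ENNReal.add_ne_top.2 ?_))
      (measure_ne_top _ _)
    exact ⟨BB_fin hf _ _, BB_fin hf _ _⟩
  · refine Eventually.of_forall fun θ => ?_
    have e1 := ((GS_cont (a := a) (b := b) hf hd p.1 (p.2 • (θ : E d))).tendsto x').comp hc'
    have e2 := ((GS_cont (a := a) (b := b) hf hd p.1 (p.2 • (θ : E d))).tendsto x).comp hc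
    exact ((ENNReal.continuous_pow 2).tendsto _).comp ((e1.sub e2).enorm)

/-- the variation along a given sequence -/
noncomputable def Ph (a : E d →ₗᵢ[ℝ] E n) (b : E m →ₗᵢ[ℝ] E n) (f : E n → ℂ) (q : ℝ) (L : ℕ)
    (N : ℕ → ℝ) (p : E m × ℝ) : ℝ≥0∞ :=
  (∑ j ∈ Finset.range L, DD a b f p (N j) (N (j + 1)) ^ (q / 2)) ^ (1 / q)

theorem Ph_meas (hM : T_MEA) (hf : Nice f) (q : ℝ) (L : ℕ) (N : ℕ → ℝ) :
    Measurable (Ph a b f q L N) := by
  unfold Ph
  refine Measurable.pow_const ?_ _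
  refine Finset.measurable_fun_sum _ fun j _ => ?_
  exact (DD_meas hM hf _ _).pow_const _

/-- the countable family of sequences -/
noncomputable def WW (k L : ℕ) (z : Fin (L + 1) → ℤ) (j : ℕ) : ℝ :=
  (z ⟨min j L, by omega⟩ : ℝ) / ((k : ℝ) + 1)

theorem WW_mono (k L : ℕ) {z : Fin (L + 1) → ℤ} (hz : Monotone z) : Monotone (WW k L z) := by
  intro i j hij
  unfold WW
  have h : z ⟨min i L, by omega⟩ ≤ z ⟨min j L, by omega⟩ := by
    refine hz ?_
    rw [Fin.mk_le_mk]
    omega
  gcongr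

theorem ceil_lim (x : ℝ) : Tendsto (fun k : ℕ => ((⌈((k : ℝ) + 1) * x⌉ : ℤ) : ℝ) / ((k : ℝ) + 1))
    atTop (𝓝 x) := by
  have h1 : Tendsto (fun k : ℕ => x + 1 / ((k : ℝ) + 1)) atTop (𝓝 (x + 0)) :=
    tendsto_const_nhds.add tendsto_one_div_add_atTop_nhds_zero_nat
  rw [add_zero] at h1
  refine tendsto_of_tendsto_of_tendsto_of_le_of_le tendsto_const_nhds h1 (fun k => ?_)
    fun k => ?_
  · have hk : (0 : ℝ) < (k : ℝ) + 1 := by positivity
    simp only
    rw [le_div_iff₀ hk, mul_comm]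
    exact Int.le_ceil _
  · have hk : (0 : ℝ) < (k : ℝ) + 1 := by positivity
    simp only
    rw [div_le_iff₀ hk]
    have h2 := (Int.ceil_lt_add_one (((k : ℝ) + 1) * x)).le
    have h3 : (x + 1 / ((k : ℝ) + 1)) * ((k : ℝ) + 1) = ((k : ℝ) + 1) * x + 1 := by
      field_simp
    rw [h3]
    exact h2

theorem ceil_le (x : ℝ) (k : ℕ) :
    ((⌈((k : ℝ) + 1) * x⌉ : ℤ) : ℝ) / ((k : ℝ) + 1) ≤ x + 1 := by
  have hk : (0 : ℝ) < (k : ℝ) + 1 := by positivity
  rw [div_le_iff₀ hk]
  have h2 := (Int.ceil_lt_add_one (((k : ℝ) + 1) * x)).le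
  have hk0 : (0 : ℝ) ≤ k := Nat.cast_nonneg k
  nlinarith

theorem GV_eq (hM : T_MEA) (hf : Nice f) (hd : 1 ≤ d) {q : ℝ} (p : E m × ℝ) :
    GV a b q f p.1 p.2 = ⨆ (k : ℕ) (L : ℕ) (z : Fin (L + 1) → ℤ) (_ : Monotone z),
      Ph a b f q L (WW k L z) p := by
  refine le_antisymm ?_ ?_
  · unfold GV
    refine iSup_le fun L => iSup_le fun N => iSup_le fun hN => ?_
    -- the approximations
    let z : ℕ → Fin (L + 1) → ℤ := fun k i => ⌈((k : ℝ) + 1) * N i⌉
    have hz : ∀ k, Monotone (z k) := by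
      intro k i j hij
      refine Int.ceil_le_ceil ?_
      have h1 : N (i : ℕ) ≤ N (j : ℕ) := hN (by exact_mod_cast hij)
      gcongr
    have hW : ∀ k, ∀ j ≤ L, WW k L (z k) j =
        ((⌈((k : ℝ) + 1) * N j⌉ : ℤ) : ℝ) / ((k : ℝ) + 1) := by
      intro k j hj
      unfold WW
      simp only [z]
      rw [min_eq_left hj]
    have hlim : Tendsto (fun k => Ph a b f q L (WW k L (z k)) p) atTop
        (𝓝 (Ph a b f q L N p)) := by
      unfold Ph
      refine (ENNReal.continuous_rpow_const.tendsto _).comp ?_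
      refine tendsto_finsetSum _ fun j hj => ?_
      have hj := Finset.mem_range.1 hj
      refine (ENNReal.continuous_rpow_const.tendsto _).comp ?_
      refine DD_lim hM hf hd p (R := N (j + 1) + 1) ?_ ?_ ?_ ?_
      · simp only [hW _ j (by omega)]
        exact ceil_lim _
      · simp only [hW _ (j + 1) (by omega)]
        exact ceil_lim _
      · intro k
        rw [hW k j (by omega)]
        exact (ceil_le _ _).trans (by linarith [hN (Nat.le_succ j)])
      · intro k
        rw [hW k (j + 1) (by omega)]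
        exact ceil_le _ _
    refine le_of_tendsto' hlim fun k => ?_
    exact le_iSup_of_le k (le_iSup_of_le L (le_iSup_of_le (z k) (le_iSup_of_le (hz k) le_rfl)))
  · refine iSup_le fun k => iSup_le fun L => iSup_le fun z => iSup_le fun hz => ?_
    exact le_iSup_of_le L (le_iSup_of_le (WW k L z) (le_iSup_of_le (WW_mono k L hz) le_rfl))

end GVM_

open GVM_ in
theorem p_GVM (h1 : T_MEA) : T_GVM := by
  intro n d m a b f q hf hd _ _
  have e : (fun p : E m × ℝ => GV a b q f p.1 p.2) = fun p =>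
      ⨆ (k : ℕ) (L : ℕ) (z : Fin (L + 1) → ℤ) (_ : Monotone z),
        Ph a b f q L (WW k L z) p := funext fun p => GV_eq h1 hf hd p
  rw [e]
  exact Measurable.iSup fun k => Measurable.iSup fun L => Measurable.iSup fun z =>
    Measurable.iSup fun _ => Ph_meas h1 hf q L _

end Pool.Agent.CYL
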