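import Pool.Agent.CYL.Targets2
import Pool.Agent.CRR.P_RCH

set_option autoImplicit false

/-!
# CYL, block NVC: radii with `M` values on every cylinder
-/

namespace Pool.Agent.CYL

open MeasureTheory FourierTransform Set Filter Topology
open scoped ENNReal NNReal ComplexConjugate
open Pool.Agent.MBS (E ex S)
open Pool.Agent.CRN (Nice sg T_POLN)
open Pool.Agent.VRR (kr)

namespace NVC_

lemma log3 : (1 : ℝ) ≤ Real.log 3 := by
  rw [Real.le_log_iff_exp_le (by norm_num)]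
  have := Real.exp_one_lt_d9
  linarith

/-- the parameters -/
lemma par {M : ℕ} (hM : 1 ≤ M) : ∃ q : ℝ, 2 < q ∧ q ≤ 4 ∧ kr q = 2 + Real.log M ∧
    (M : ℝ) ^ (1 - 2 / q) ≤ 3 := by
  have hM1 : (1 : ℝ) ≤ M := by exact_mod_cast hM
  have hl : 0 ≤ Real.log M := Real.log_nonneg hM1
  set w : ℝ := 2 + Real.log M with hw
  have hw2 : 2 ≤ w := by linarith
  have hw0 : 0 < w := by linarith
  have hw1 : 0 < w - 1 := by linarith
  refine ⟨2 * w / (w - 1), ?_, ?_, ?_, ?_⟩
  · rw [lt_div_iff₀ hw1]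
    linarith
  · rw [div_le_iff₀ hw1]
    linarith
  · unfold kr
    have : 2 * w / (w - 1) - 2 = 2 / (w - 1) := by
      field_simp
      ring
    rw [this]
    field_simp
  · have e : 1 - 2 / (2 * w / (w - 1)) = 1 / w := by
      field_simp
      ring
    rw [e, Real.rpow_def_of_pos (by linarith)]
    have h1 : Real.log M * (1 / w) ≤ 1 := by
      rw [mul_one_div, div_le_one hw0]
      linarith
    calc Real.exp (Real.log M * (1 / w)) ≤ Real.exp 1 := Real.exp_le_exp.2 h1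
      _ ≤ 3 := by linarith [Real.exp_one_lt_d9]

lemma w_le {M : ℕ} (hM : 1 ≤ M) : 2 + Real.log M ≤ 4 * Real.log (2 + M) := by
  have hM1 : (1 : ℝ) ≤ M := by exact_mod_cast hM
  have h1 : Real.log 3 ≤ Real.log (2 + M) := Real.log_le_log (by norm_num) (by linarith)
  have h2 : Real.log M ≤ Real.log (2 + M) := Real.log_le_log (by linarith) (by linarith)
  linarith [log3]

theorem S_zero {n : ℕ} (hn : 1 ≤ n) (f : E n → ℂ) (x : E n) : S f 0 x = 0 := by
  have : Nonempty (Fin n) := ⟨⟨0, by omega⟩⟩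
  unfold S
  rw [Metric.closedBall_zero]
  exact setIntegral_measure_zero _ (by simp)

variable {n d m : ℕ}

theorem dle (a : E d →ₗᵢ[ℝ] E n) : d ≤ n := by
  have := LinearMap.finrank_le_finrank_of_injective (f := a.toLinearMap) a.injective
  simpa using this

/-- the projection to the first factor -/
theorem proj {a : E d →ₗᵢ[ℝ] E n} {b : E m →ₗᵢ[ℝ] E n} (hs : Spl a b) (t : E d) (y : E m) :
    ContinuousLinearMap.adjoint a.toContinuousLinearMap (a t + b y) = t := by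
  refine ext_inner_left ℝ fun s => ?_
  rw [ContinuousLinearMap.adjoint_inner_right, LinearIsometry.coe_toContinuousLinearMap,
    inner_add_right, hs.orth, add_zero, LinearIsometry.inner_map_map]

theorem meas_joint {a : E d →ₗᵢ[ℝ] E n} {b : E m →ₗᵢ[ℝ] E n} (hs : Spl a b) {f : E n → ℂ}
    (hf : Integrable f) {ρ : ℝ → ℝ} (hρ : Measurable ρ) :
    Measurable fun q : E d × E m => S f (ρ ‖q.1‖) (a q.1 + b q.2) := by
  have h0 : Measurable fun x : E n =>
      ρ ‖ContinuousLinearMap.adjoint a.toContinuousLinearMap x‖ :=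
    hρ.comp (ContinuousLinearMap.continuous _).norm.measurable
  have h1 := Pool.Agent.CRR.RCH_.S_meas hf h0
  have h2 : Measurable fun q : E d × E m => a q.1 + b q.2 :=
    ((a.continuous.comp continuous_fst).add (b.continuous.comp continuous_snd)).measurable
  have h3 := h1.comp h2
  have h4 : (fun q : E d × E m => S f (ρ ‖q.1‖) (a q.1 + b q.2)) =
      (fun x => S f (ρ ‖ContinuousLinearMap.adjoint a.toContinuousLinearMap x‖) x) ∘
        fun q : E d × E m => a q.1 + b q.2 := by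
    funext q
    simp only [Function.comp_apply]
    rw [proj hs]
  rw [h4]
  exact h3

theorem meas_fix (a : E d →ₗᵢ[ℝ] E n) (b : E m →ₗᵢ[ℝ] E n) {f : E n → ℂ}
    (hf : Integrable f) (c r : ℝ) :
    Measurable fun q : Metric.sphere (0 : E d) 1 × E m => S f c (a (r • (q.1 : E d)) + b q.2) := by
  have h1 := Pool.Agent.CRR.RCH_.S_meas hf (measurable_const (a := c) (α := ℝ) (β := E n))
  have h2 : Measurable fun q : Metric.sphere (0 : E d) 1 × E m =>
      a (r • (q.1 : E d)) + b q.2 :=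
    ((a.continuous.comp ((continuous_subtype_val.comp continuous_fst).const_smul r)).add
      (b.continuous.comp continuous_snd)).measurable
  exact h1.comp h2

/-- the variation over the product -/
theorem VT_eq (a : E d →ₗᵢ[ℝ] E n) (b : E m →ₗᵢ[ℝ] E n) {f : E n → ℂ}
    (hf : Integrable f) (q r : ℝ) :
    (⨆ (L : ℕ) (N : ℕ → ℝ) (_ : Monotone N), (∑ j ∈ Finset.range L,
      (∫⁻ x : Metric.sphere (0 : E d) 1 × E m, ‖S f (N (j + 1)) (a (r • (x.1 : E d)) + b x.2) -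
        S f (N j) (a (r • (x.1 : E d)) + b x.2)‖ₑ ^ 2 ∂((sg d).prod volume)) ^ (q / 2)) ^ (1 / q))
      = VT a b q f r := by
  unfold VT
  refine iSup_congr fun L => iSup_congr fun N => iSup_congr fun _ => ?_
  congr 1
  refine Finset.sum_congr rfl fun j _ => ?_
  congr 1
  rw [lintegral_prod]
  exact (((meas_fix a b hf _ r).sub (meas_fix a b hf _ r)).enorm.pow_const 2).aemeasurable

end NVC_

open NVC_ in
theorem p_NVC (h1 : T_VTI) (h2 : T_NVX) (h3 : T_POLN) : T_NVC := by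
  intro d hd
  obtain ⟨C1, hC1⟩ := h1 d hd
  obtain ⟨C2, hC2⟩ := h2
  refine ⟨C2 * 3 * C1 * 4 ^ 16, ?_⟩
  intro n m M a b f ρ hs hf hM hρ hρ0
  obtain ⟨q, hq2, hq4, hkr, hMq⟩ := par hM
  have hlog := w_le hM
  have hM1 : (1 : ℝ) ≤ M := by exact_mod_cast hM
  have hl : 0 ≤ Real.log M := Real.log_nonneg hM1
  have hk0 : 0 ≤ kr q := by rw [hkr]; linarith
  obtain ⟨hpol, -, -⟩ := h3 d (by omega)
  have hn : 1 ≤ n := hd.trans (dle a)
  have hjoint : Measurable fun p : E d × E m =>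
      (⨆ (j : ℕ) (_ : j < M), ‖S f (ρ j ‖p.1‖) (a p.1 + b p.2)‖ₑ) ^ 2 := by
    refine Measurable.pow_const ?_ 2
    refine Measurable.iSup fun j => Measurable.iSup fun _ => ?_
    exact (meas_joint hs hf.int (hρ j)).enorm
  have hmeas : Measurable fun t : E d => ∫⁻ y : E m,
      (⨆ (j : ℕ) (_ : j < M), ‖S f (ρ j ‖t‖) (a t + b y)‖ₑ) ^ 2 :=
    hjoint.lintegral_prod_right'
  rw [hpol _ hmeas]
  -- one cylinder
  have hsph : ∀ r ∈ Ioi (0 : ℝ), ∫⁻ ω, ENNReal.ofReal (r ^ (d - 1)) * ∫⁻ y : E m,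
      (⨆ (j : ℕ) (_ : j < M), ‖S f (ρ j ‖r • (ω : E d)‖) (a (r • (ω : E d)) + b y)‖ₑ) ^ 2
        ∂volume ∂(sg d) ≤
      C2 * ENNReal.ofReal (kr q ^ 2 * (M : ℝ) ^ (1 - 2 / q)) *
        (VT a b q f r ^ 2 * ENNReal.ofReal (r ^ (d - 1))) := by
    intro r hr
    have hr0 : (0 : ℝ) < r := hr
    have e1 : ∀ ω : Metric.sphere (0 : E d) 1, ‖r • (ω : E d)‖ = r := by
      intro ω
      rw [norm_smul, Real.norm_eq_abs, abs_of_pos hr0, norm_eq_of_mem_sphere, mul_one]
    simp only [e1]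
    rw [lintegral_const_mul' _ _ ENNReal.ofReal_ne_top]
    have h5 := hC2 q hq2 hq4 (Metric.sphere (0 : E d) 1 × E m) ((sg d).prod volume)
      (fun c p => S f c (a (r • (p.1 : E d)) + b p.2)) M (fun j => ρ j r) hM
      (fun c => meas_fix a b hf.int c r) (fun p => S_zero hn f _) (fun j => hρ0 j r)
    rw [VT_eq a b hf.int q r, lintegral_prod] at h5
    · calc ENNReal.ofReal (r ^ (d - 1)) * ∫⁻ ω, ∫⁻ y : E m,
          (⨆ (j : ℕ) (_ : j < M), ‖S f (ρ j r) (a (r • (ω : E d)) + b y)‖ₑ) ^ 2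
            ∂volume ∂(sg d)
          ≤ ENNReal.ofReal (r ^ (d - 1)) *
            (C2 * ENNReal.ofReal (kr q ^ 2 * (M : ℝ) ^ (1 - 2 / q)) * VT a b q f r ^ 2) := by
            gcongr
        _ = _ := by ring
    · refine Measurable.aemeasurable ?_
      refine Measurable.pow_const ?_ 2
      refine Measurable.iSup fun j => Measurable.iSup fun _ => ?_
      exact (meas_fix a b hf.int _ r).enorm
  calc ∫⁻ r in Ioi (0 : ℝ), ∫⁻ ω, ENNReal.ofReal (r ^ (d - 1)) * ∫⁻ y : E m,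
      (⨆ (j : ℕ) (_ : j < M), ‖S f (ρ j ‖r • (ω : E d)‖) (a (r • (ω : E d)) + b y)‖ₑ) ^ 2
        ∂volume ∂(sg d)
      ≤ ∫⁻ r in Ioi (0 : ℝ), C2 * ENNReal.ofReal (kr q ^ 2 * (M : ℝ) ^ (1 - 2 / q)) *
        (VT a b q f r ^ 2 * ENNReal.ofReal (r ^ (d - 1))) :=
        setLIntegral_mono' measurableSet_Ioi hsph
    _ = C2 * ENNReal.ofReal (kr q ^ 2 * (M : ℝ) ^ (1 - 2 / q)) *
        ∫⁻ r in Ioi (0 : ℝ), VT a b q f r ^ 2 * ENNReal.ofReal (r ^ (d - 1)) := by
        rw [lintegral_const_mul']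
        exact ENNReal.mul_ne_top ENNReal.coe_ne_top ENNReal.ofReal_ne_top
    _ ≤ C2 * ENNReal.ofReal (kr q ^ 2 * (M : ℝ) ^ (1 - 2 / q)) *
        (C1 * ENNReal.ofReal (kr q ^ 14) * ∫⁻ x, ‖f x‖ₑ ^ 2) := by
        gcongr
        exact hC1 q hq2 hq4 n m a b f hs hf
    _ ≤ C2 * ENNReal.ofReal (kr q ^ 2 * 3) *
        (C1 * ENNReal.ofReal (kr q ^ 14) * ∫⁻ x, ‖f x‖ₑ ^ 2) := by
        gcongr
    _ = C2 * 3 * C1 * ENNReal.ofReal (kr q ^ 16) * ∫⁻ x, ‖f x‖ₑ ^ 2 := by
        have e2 : ENNReal.ofReal (kr q ^ 16) =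
            ENNReal.ofReal (kr q ^ 2) * ENNReal.ofReal (kr q ^ 14) := by
          rw [← ENNReal.ofReal_mul (by positivity)]
          congr 1
          ring
        rw [e2, ENNReal.ofReal_mul (by positivity), ENNReal.ofReal_ofNat]
        ring
    _ ≤ C2 * 3 * C1 * ENNReal.ofReal (4 ^ 16 * Real.log (2 + M) ^ 16) * ∫⁻ x, ‖f x‖ₑ ^ 2 := by
        gcongr
        rw [← mul_pow]
        gcongr
        rw [hkr]
        exact hlog
    _ = _ := by
        rw [ENNReal.ofReal_mul (by positivity), ENNReal.ofReal_pow (by norm_num),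
          ENNReal.ofReal_ofNat]
        push_cast
        ring

end Pool.Agent.CYL
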