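import Pool.Agent.CYL.Targets2
import Pool.Agent.VRR.P_NVD

set_option autoImplicit false

/-!
# CYL, NVX: Rademacher-Menshov with the q-variation on a measure space
-/

namespace Pool.Agent.CYL

open MeasureTheory FourierTransform Set Filter Topology
open scoped ENNReal NNReal ComplexConjugate
open Pool.Agent.VRR (kr T_REX)

open Pool.Agent.VRR.NVD_ Pool.Agent.CRN.RMN_ in
/-- NVX -/
theorem p_NVX (h1 : T_REX) : T_NVX := by
  refine ⟨32, ?_⟩
  intro q hq hq4 X _ μ F M R hM hFm hF0 hR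
  set V : ℝ≥0∞ := ⨆ (L : ℕ) (N : ℕ → ℝ) (_ : Monotone N), (∑ j ∈ Finset.range L,
    (∫⁻ x, ‖F (N (j + 1)) x - F (N j) x‖ₑ ^ 2 ∂μ) ^ (q / 2)) ^ (1 / q) with hV
  have h0 := h1
  obtain ⟨-, -, -, -, -, -, -, -, hK, -, hp, hp2, -, -, -⟩ := h0 q hq hq4
  have hρ := ro_pos q
  have hBρ := ro_ge h0 hq hq4
  obtain ⟨ρ, hρd⟩ : ∃ ρ, ρ = ro q := ⟨_, rfl⟩
  obtain ⟨B, hBd⟩ : ∃ B, B = 4 * kr q := ⟨_, rfl⟩
  rw [← hρd] at hρ hBρ
  rw [← hBd] at hBρ
  have hB : 1 ≤ B := by linarith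
  obtain ⟨t, htm, ht0, htR⟩ := sorted M R hM hR
  obtain ⟨J, hJ1, hJ2⟩ : ∃ J : ℕ, M ≤ 2 ^ J ∧ 2 ^ J ≤ 2 * M := by
    refine ⟨Nat.log 2 M + 1, (Nat.lt_pow_succ_log_self one_lt_two M).le, ?_⟩
    rw [pow_succ]
    have := Nat.pow_log_le_self 2 (show M ≠ 0 by omega)
    omega
  set P : ℕ → X → ℂ := fun i x => F (t i) x with hP
  set A : ℝ≥0∞ := ENNReal.ofReal (B * ρ ^ J) with hA
  have hm : ∀ l i : ℕ, Measurable fun x : X =>
      ‖P ((i + 1) * 2 ^ l) x - P (i * 2 ^ l) x‖ₑ ^ 2 := by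
    intro l i
    exact (((hFm _).sub (hFm _)).enorm).pow_const 2
  have hpt : ∀ θ : X,
      (⨆ (j : ℕ) (_ : j < M), ‖F (R j) θ‖ₑ) ^ 2 ≤
      A * ∑ l ∈ Finset.range (J + 1), ENNReal.ofReal ((ρ ^ (J - l))⁻¹) *
        ∑ i ∈ Finset.range (2 ^ (J - l)),
        ‖P ((i + 1) * 2 ^ l) θ - P (i * 2 ^ l) θ‖ₑ ^ 2 := by
    intro θ
    refine sup_sq_le fun j hj => ?_
    obtain ⟨i, hi, hti⟩ := htR j hj
    have h0 : P 0 θ = 0 := by
      rw [hP]
      simp only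
      rw [ht0]
      exact hF0 θ
    have h1 := chain_w hρ hB hBρ (fun i => P i θ) h0 (hi.trans hJ1)
    have h2 : F (R j) θ = P i θ := by
      rw [hP]
      simp only
      rw [hti]
    rw [h2]
    refine h1.trans ?_
    refine mul_le_mul_right (Finset.sum_le_sum fun l hl => ?_) _
    refine mul_le_mul_right ?_ _
    have hl' : l ≤ J := by
      have := Finset.mem_range.1 hl
      omega
    exact step_enorm (fun i => P i θ) (hi.trans hJ1) hl'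
  have hlev : ∀ l : ℕ, ∑ i ∈ Finset.range (2 ^ (J - l)), ∫⁻ θ,
      ‖P ((i + 1) * 2 ^ l) θ - P (i * 2 ^ l) θ‖ₑ ^ 2 ∂μ ≤
      ENNReal.ofReal ((ρ ^ 2) ^ (J - l)) * V ^ 2 := by
    intro l
    rw [hρd]
    refine cs h0 hq hq4 _ _ ?_
    have h1 : Monotone (fun i : ℕ => t (i * 2 ^ l)) := fun i j hij =>
      htm (Nat.mul_le_mul_right _ hij)
    exact le_iSup_of_le (2 ^ (J - l)) (le_iSup₂_of_le (fun i : ℕ => t (i * 2 ^ l)) h1 le_rfl)
  have hqq : ∀ l, ENNReal.ofReal ((ρ ^ (J - l))⁻¹) * (ENNReal.ofReal ((ρ ^ 2) ^ (J - l)) *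
      V ^ 2) = ENNReal.ofReal (ρ ^ (J - l)) * V ^ 2 := by
    intro l
    have h1 : 0 < ρ ^ (J - l) := pow_pos hρ _
    rw [← mul_assoc, ← ENNReal.ofReal_mul (by positivity)]
    congr 2
    rw [← pow_mul, mul_comm 2 (J - l), pow_mul, sq, ← mul_assoc, inv_mul_cancel₀ h1.ne', one_mul]
  calc ∫⁻ θ, (⨆ (j : ℕ) (_ : j < M), ‖F (R j) θ‖ₑ) ^ 2 ∂μ
      ≤ ∫⁻ θ, A * ∑ l ∈ Finset.range (J + 1), ENNReal.ofReal ((ρ ^ (J - l))⁻¹) *
        ∑ i ∈ Finset.range (2 ^ (J - l)),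
        ‖P ((i + 1) * 2 ^ l) θ - P (i * 2 ^ l) θ‖ₑ ^ 2 ∂μ :=
        lintegral_mono hpt
    _ = A * ∑ l ∈ Finset.range (J + 1), ENNReal.ofReal ((ρ ^ (J - l))⁻¹) *
        ∑ i ∈ Finset.range (2 ^ (J - l)), ∫⁻ θ,
        ‖P ((i + 1) * 2 ^ l) θ - P (i * 2 ^ l) θ‖ₑ ^ 2 ∂μ := by
        rw [lintegral_const_mul _ (Finset.measurable_sum _ fun l _ =>
          (Finset.measurable_sum _ fun i _ => hm l i).const_mul _),
          lintegral_finsetSum _ fun l _ =>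
            (Finset.measurable_sum _ fun i _ => hm l i).const_mul _]
        congr 1
        refine Finset.sum_congr rfl fun l _ => ?_
        rw [lintegral_const_mul _ (Finset.measurable_sum _ fun i _ => hm l i),
          lintegral_finsetSum _ fun i _ => hm l i]
    _ ≤ A * ∑ l ∈ Finset.range (J + 1), ENNReal.ofReal (ρ ^ (J - l)) * V ^ 2 := by
        refine mul_le_mul_right (Finset.sum_le_sum fun l _ => ?_) _
        rw [← hqq l]
        exact mul_le_mul_right (hlev l) _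
    _ ≤ A * (A * V ^ 2) := by
        rw [← Finset.sum_mul, ← ENNReal.ofReal_sum_of_nonneg
          (fun l _ => (pow_pos hρ (J - l)).le)]
        refine mul_le_mul_right (mul_le_mul_left (ENNReal.ofReal_le_ofReal (geo hρ hB hBρ J)) _) _
    _ ≤ ((32 : ℝ≥0) : ℝ≥0∞) * ENNReal.ofReal (kr q ^ 2 * (M : ℝ) ^ (1 - 2 / q)) *
          V ^ 2 := by
        rw [← mul_assoc]
        refine mul_le_mul_left ?_ _
        have h1 : 0 < ρ ^ J := pow_pos hρ _
        rw [hA, ← ENNReal.ofReal_mul (by positivity)]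
        have h2 : ((32 : ℝ≥0) : ℝ≥0∞) = ENNReal.ofReal 32 := by
          rw [ENNReal.ofReal_ofNat]
          rfl
        rw [h2, ← ENNReal.ofReal_mul (by norm_num)]
        refine ENNReal.ofReal_le_ofReal ?_
        have h3 : ρ ^ J * ρ ^ J = ((2 : ℝ) ^ J) ^ (1 - 2 / q) := by
          rw [← mul_pow, ← sq, hρd, ro_sq, ← Real.rpow_natCast, ← Real.rpow_mul (by norm_num),
            ← Real.rpow_natCast, ← Real.rpow_mul (by norm_num), mul_comm]
        have h5 : (2 : ℝ) ^ J ≤ 2 * M := by exact_mod_cast hJ2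
        have hM0 : (0 : ℝ) ≤ M := by positivity
        have h4 : ((2 : ℝ) ^ J) ^ (1 - 2 / q) ≤ 2 * (M : ℝ) ^ (1 - 2 / q) := by
          calc ((2 : ℝ) ^ J) ^ (1 - 2 / q) ≤ (2 * (M : ℝ)) ^ (1 - 2 / q) :=
                Real.rpow_le_rpow (by positivity) h5 hp.le
            _ = (2 : ℝ) ^ (1 - 2 / q) * (M : ℝ) ^ (1 - 2 / q) :=
                Real.mul_rpow (by norm_num) hM0
            _ ≤ 2 * (M : ℝ) ^ (1 - 2 / q) := by
                gcongr
                calc (2 : ℝ) ^ (1 - 2 / q) ≤ (2 : ℝ) ^ (1 : ℝ) :=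
                      Real.rpow_le_rpow_of_exponent_le (by norm_num) (by linarith)
                  _ = 2 := Real.rpow_one 2
        calc B * ρ ^ J * (B * ρ ^ J) = 16 * kr q ^ 2 * (ρ ^ J * ρ ^ J) := by rw [hBd]; ring
          _ ≤ 16 * kr q ^ 2 * (2 * (M : ℝ) ^ (1 - 2 / q)) := by
              rw [h3]
              gcongr
          _ = 32 * (kr q ^ 2 * (M : ℝ) ^ (1 - 2 / q)) := by ring

end Pool.Agent.CYL
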