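import Pool.Agent.CYL.Targets2
import Pool.Agent.CYL.P_PLY

set_option autoImplicit false

/-!
# CYL, target PLD: Plancherel in the second group of variables for the difference of two radii
-/

namespace Pool.Agent.CYL

open MeasureTheory FourierTransform Set Filter Topology
open scoped ENNReal NNReal ComplexConjugate
open Pool.Agent.MBS (E ex S)
open Pool.Agent.CRN (Nice)

namespace PLD_

open PLY_ (GG GG_memLp S_eq)

theorem GS_neg {n d m : ℕ} (a : E d →ₗᵢ[ℝ] E n) (b : E m →ₗᵢ[ℝ] E n) (f : E n → ℂ) (η : E m)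
    (t : E d) : GS a b f (-1) η t = 0 := by
  unfold GS
  rw [Metric.closedBall_eq_empty.2 (by norm_num), Measure.restrict_empty, integral_zero_measure]

theorem null_ball {d : ℕ} (hd : 1 ≤ d) {R : ℝ} (hR : R ≤ 0) :
    volume (Metric.closedBall (0 : E d) R) = 0 := by
  have _ : Nonempty (Fin d) := ⟨⟨0, by omega⟩⟩
  have _ : Nontrivial (E d) := inferInstance
  rcases lt_or_eq_of_le hR with h | h
  · rw [Metric.closedBall_eq_empty.2 h, measure_empty]
  · rw [h, Metric.closedBall_zero]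
    exact measure_singleton _

theorem GS_zero {n d m : ℕ} (hd : 1 ≤ d) (a : E d →ₗᵢ[ℝ] E n) (b : E m →ₗᵢ[ℝ] E n) (f : E n → ℂ)
    (η : E m) (t : E d) : GS a b f 0 η t = 0 := by
  unfold GS
  rw [Measure.restrict_zero_set (null_ball hd le_rfl), integral_zero_measure]

theorem S_nonpos {n : ℕ} (hn : 1 ≤ n) (f : E n → ℂ) {R : ℝ} (hR : R ≤ 0) (x : E n) :
    S f R x = 0 := by
  unfold S
  rw [Measure.restrict_zero_set (null_ball hn hR), integral_zero_measure]

/-- the slices as a function of `η` -/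
noncomputable def GD {n d m : ℕ} (a : E d →ₗᵢ[ℝ] E n) (b : E m →ₗᵢ[ℝ] E n) (f : E n → ℂ)
    (R : ℝ) (t : E d) : E m → ℂ := fun η => GS a b f (sl R η) η t

theorem GD_pos {n d m : ℕ} (hd : 1 ≤ d) (a : E d →ₗᵢ[ℝ] E n) (b : E m →ₗᵢ[ℝ] E n) (f : E n → ℂ)
    {R : ℝ} (hR : 0 < R) (t : E d) : GD a b f R t = GG a b f R t := by
  funext η
  unfold GD GG sl
  by_cases h : ‖η‖ < R
  · rw [if_pos h, indicator_of_mem (mem_closedBall_zero_iff.2 h.le)]
  · rw [if_neg h, GS_neg]
    by_cases h2 : η ∈ Metric.closedBall (0 : E m) R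
    · rw [indicator_of_mem h2]
      rw [mem_closedBall_zero_iff] at h2
      have h3 : ‖η‖ = R := le_antisymm h2 (not_lt.1 h)
      rw [h3, sub_self, Real.sqrt_zero, GS_zero hd]
    · rw [indicator_of_notMem h2]

theorem GD_nonpos {n d m : ℕ} (a : E d →ₗᵢ[ℝ] E n) (b : E m →ₗᵢ[ℝ] E n) (f : E n → ℂ)
    {R : ℝ} (hR : R ≤ 0) (t : E d) : GD a b f R t = fun _ => 0 := by
  funext η
  unfold GD sl
  rw [if_neg (not_lt.2 (hR.trans (norm_nonneg η))), GS_neg]

theorem GD_memLp {n d m : ℕ} (h2 : T_MEA) (hd : 1 ≤ d) (a : E d →ₗᵢ[ℝ] E n)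
    (b : E m →ₗᵢ[ℝ] E n) {f : E n → ℂ} (hf : Nice f) (R : ℝ) (t : E d) (q : ℝ≥0∞) :
    MemLp (GD a b f R t) q := by
  rcases lt_or_ge 0 R with hR | hR
  · rw [GD_pos hd a b f hR t]
    exact GG_memLp h2 a b hf hR t q
  · rw [GD_nonpos a b f hR t]
    exact MemLp.zero'

theorem S_all {n d m : ℕ} (h1 : T_SPL) (hd : 1 ≤ d) (a : E d →ₗᵢ[ℝ] E n) (b : E m →ₗᵢ[ℝ] E n)
    {f : E n → ℂ} (hs : Spl a b) (hf : Nice f) (R : ℝ) (t : E d) (y : E m) :
    S f R (a t + b y) = ∫ η, GD a b f R t η * ex y η := by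
  rcases lt_or_ge 0 R with hR | hR
  · rw [GD_pos hd a b f hR t]
    exact S_eq h1 a b hs hf hR t y
  · have hn : 1 ≤ n := by
      have h3 := LinearMap.finrank_le_finrank_of_injective (f := a.toLinearMap) a.injective
      rw [finrank_euclideanSpace_fin, finrank_euclideanSpace_fin] at h3
      exact hd.trans h3
    rw [GD_nonpos a b f hR t, S_nonpos hn f hR]
    simp

theorem int_ex {m : ℕ} {G : E m → ℂ} (hG : Integrable G) (y : E m) :
    Integrable (fun η => G η * ex y η) := by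
  refine Integrable.mono hG (hG.1.mul ?_) (Eventually.of_forall fun η => ?_)
  · exact ((PFT_.ex_cont m).comp (continuous_const.prodMk continuous_id)).aestronglyMeasurable
  · rw [norm_mul, PFT_.norm_ex, mul_one]

end PLD_

open PLD_ in
theorem p_PLD (h1 : T_SPL) (h2 : T_MEA) : T_PLD := by
  intro n d m a b f hs hf hd R R' t
  set G : E m → ℂ := fun η => GD a b f R' t η - GD a b f R t η with hG
  have hI : ∀ R, Integrable (GD a b f R t) := fun R =>
    memLp_one_iff_integrable.1 (GD_memLp (m := m) h2 hd a b hf R t 1)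
  have hG1 : Integrable G := (hI R').sub (hI R)
  have hG2 : MemLp G 2 :=
    (GD_memLp (m := m) h2 hd a b hf R' t 2).sub (GD_memLp (m := m) h2 hd a b hf R t 2)
  have e1' : ∀ y : E m, S f R' (a t + b y) - S f R (a t + b y) = 𝓕 G (-y) := by
    intro y
    rw [S_all h1 hd a b hs hf R' t y, S_all h1 hd a b hs hf R t y, PFT_.fourier_ex,
      ← integral_sub (int_ex (hI R') y) (int_ex (hI R) y)]
    refine integral_congr_ae (Eventually.of_forall fun η => ?_)
    simp only
    rw [neg_neg, hG]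
    unfold ex
    rw [real_inner_comm]
    ring
  simp only [e1']
  rw [lintegral_neg_eq_self (fun y => ‖𝓕 G y‖ₑ ^ 2), PFT_.plan hG1 hG2]
  rfl

end Pool.Agent.CYL
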