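import Pool.Agent.CYL.Targets2
import Pool.Agent.CYL.P_LI1

set_option autoImplicit false

/-!
# CYL, target RA1 (helper66): the variation theorem in dimension one
-/

namespace Pool.Agent.CYL

open MeasureTheory FourierTransform Set Filter Topology
open scoped ENNReal NNReal ComplexConjugate
open Pool.Agent.MBS (E ex S)
open Pool.Agent.CAR (e1)
open Pool.Agent.CRN (Nice sg)
open Pool.Agent.VRC (GG2)
open Pool.Agent.VRR (kr VS VC T_C4)

namespace RA1_

open LI1_ (Q Ph cont_fourier e1_norm lint_of_eLpNorm Ph_apply Ph_mp Q_Ph Q_cont S_eq norm_E1)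

theorem e1_cont (t : ℝ) : Continuous (fun u : ℝ => e1 (t * u)) := by
  unfold e1
  fun_prop

/-- the cut off transform, possibly reflected -/
noncomputable def gg (f : E 1 → ℂ) (s : ℝ) (T : ℕ) : ℝ → ℂ :=
  (Icc (-(T : ℝ)) T).indicator (fun u => 𝓕 f (Q (s * u)))

theorem tr_cont {f : E 1 → ℂ} (hf : Integrable f) (s : ℝ) :
    Continuous (fun u => 𝓕 f (Q (s * u))) :=
  (cont_fourier hf).comp (Q_cont.comp (continuous_const.mul continuous_id))

theorem gg_good {f : E 1 → ℂ} (hf : Integrable f) (s : ℝ) (T : ℕ) : GG2 (gg f s T) := by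
  have hc := tr_cont hf s
  refine ⟨hc.measurable.indicator measurableSet_Icc, ?_, ?_⟩
  · unfold gg
    rw [integrable_indicator_iff measurableSet_Icc]
    exact hc.continuousOn.integrableOn_Icc
  · have h1 : (fun ξ => ‖gg f s T ξ‖ ^ 2) =
        (Icc (-(T : ℝ)) T).indicator (fun u => ‖𝓕 f (Q (s * u))‖ ^ 2) := by
      funext ξ
      unfold gg
      by_cases h : ξ ∈ Icc (-(T : ℝ)) T
      · rw [indicator_of_mem h, indicator_of_mem h]
      · rw [indicator_of_notMem h, indicator_of_notMem h, norm_zero]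
        norm_num
    rw [h1, integrable_indicator_iff measurableSet_Icc]
    exact (hc.norm.pow 2).continuousOn.integrableOn_Icc

theorem gg_sq {f : E 1 → ℂ} (hf : Nice f) {s : ℝ} (hs : s = 1 ∨ s = -1) (T : ℕ) :
    ∫⁻ ξ, ‖gg f s T ξ‖ₑ ^ 2 ≤ ∫⁻ x, ‖f x‖ₑ ^ 2 := by
  have hpl : ∫⁻ x, ‖𝓕 f x‖ₑ ^ 2 = ∫⁻ x, ‖f x‖ₑ ^ 2 :=
    lint_of_eLpNorm (Pool.Agent.H25.Plancherel.eLpNorm_fourier_eq hf.int hf.sq)
  have h0 : ∫⁻ ξ : ℝ, ‖𝓕 f (Q ξ)‖ₑ ^ 2 = ∫⁻ x, ‖f x‖ₑ ^ 2 := by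
    rw [← hpl, ← Ph_mp.lintegral_comp_emb Ph.measurableEmbedding (fun ξ => ‖𝓕 f (Q ξ)‖ₑ ^ 2)]
    refine lintegral_congr (fun x => ?_)
    rw [Ph_apply, Q_Ph]
  have h1 : ∫⁻ ξ : ℝ, ‖𝓕 f (Q (s * ξ))‖ₑ ^ 2 = ∫⁻ x, ‖f x‖ₑ ^ 2 := by
    rcases hs with rfl | rfl
    · simpa using h0
    · rw [← h0, ← lintegral_neg_eq_self (μ := volume) (fun ξ => ‖𝓕 f (Q ξ)‖ₑ ^ 2)]
      refine lintegral_congr (fun x => ?_)
      rw [neg_one_mul]
  rw [← h1]
  refine lintegral_mono (fun ξ => ?_)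
  have h3 : ‖gg f s T ξ‖ₑ ≤ ‖𝓕 f (Q (s * ξ))‖ₑ := by
    unfold gg
    by_cases h : ξ ∈ Icc (-(T : ℝ)) T
    · rw [indicator_of_mem h]
    · rw [indicator_of_notMem h, enorm_zero]
      exact zero_le
  gcongr

theorem int_cont {g : ℝ → ℂ} (hg : Integrable g) (a b : ℝ) :
    Continuous (fun x => ∫ ξ in Ico a b, g ξ * e1 (x * ξ)) := by
  refine continuous_of_dominated (bound := fun ξ => ‖g ξ‖) ?_ ?_ ?_ ?_
  · intro x
    exact (hg.aestronglyMeasurable.mul (e1_cont x).aestronglyMeasurable).restrict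
  · intro x
    refine Eventually.of_forall (fun ξ => ?_)
    rw [norm_mul, e1_norm, mul_one]
  · exact hg.norm.integrableOn
  · refine Eventually.of_forall (fun ξ => ?_)
    unfold e1
    fun_prop

theorem VC_meas (q : ℝ) {g : ℝ → ℂ} (hg : Integrable g) : Measurable (VC q g) := by
  have h : LowerSemicontinuous (VC q g) := by
    have h1 : VC q g = fun x => ⨆ (L : ℕ), ⨆ (N : ℕ → ℝ), ⨆ (_ : Monotone N),
        (∑ j ∈ Finset.range L,
          ‖∫ ξ in Ico (N j) (N (j + 1)), g ξ * e1 (x * ξ)‖ₑ ^ q) ^ (1 / q) := rfl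
    rw [h1]
    refine lowerSemicontinuous_iSup fun L => lowerSemicontinuous_iSup fun N =>
      lowerSemicontinuous_iSup fun _ => Continuous.lowerSemicontinuous ?_
    exact ENNReal.continuous_rpow_const.comp (continuous_finsetSum _ fun j _ =>
      ENNReal.continuous_rpow_const.comp ((int_cont hg _ _).enorm))
  exact h.measurable

/-- the ball sum with a nonnegative radius -/
theorem S_max (f : E 1 → ℂ) (r : ℝ) (x : E 1) :
    S f r x = ∫ u in (-(max r 0))..(max r 0), 𝓕 f (Q u) * e1 (x 0 * u) := by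
  rw [S_eq]
  rcases lt_or_ge r 0 with h | h
  · rw [max_eq_right h.le, Icc_eq_empty (by linarith)]
    simp
  · rw [max_eq_left h, intervalIntegral.integral_of_le (by linarith), integral_Icc_eq_integral_Ioc]

theorem diff_bd {f : E 1 → ℂ} (hf : Integrable f) {a b : ℝ} (hab : a ≤ b) (T : ℕ)
    (hT : b ≤ T) (x : E 1) :
    ‖S f b x - S f a x‖ₑ ≤
      ‖∫ ξ in Ico (max a 0) (max b 0), gg f 1 T ξ * e1 (x 0 * ξ)‖ₑ +
      ‖∫ ξ in Ico (max a 0) (max b 0), gg f (-1) T ξ * e1 (-(x 0) * ξ)‖ₑ := by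
  have hF : Continuous (fun u => 𝓕 f (Q u) * e1 (x 0 * u)) :=
    ((cont_fourier hf).comp Q_cont).mul (e1_cont _)
  set F : ℝ → ℂ := fun u => 𝓕 f (Q u) * e1 (x 0 * u) with hFdef
  set a' := max a 0 with ha'
  set b' := max b 0 with hb'
  have h0 : 0 ≤ a' := le_max_right _ _
  have h1 : a' ≤ b' := max_le_max hab le_rfl
  have h2 : b' ≤ T := max_le hT (Nat.cast_nonneg T)
  have hi : ∀ c d : ℝ, IntervalIntegrable F volume c d := fun c d => hF.intervalIntegrable c d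
  have e : S f b x - S f a x = (∫ u in a'..b', F u) + ∫ u in a'..b', F (-u) := by
    rw [S_max, S_max, intervalIntegral.integral_comp_neg]
    have h3 := intervalIntegral.integral_add_adjacent_intervals (hi (-b') (-a')) (hi (-a') a')
    have h4 := intervalIntegral.integral_add_adjacent_intervals (hi (-b') a') (hi a' b')
    rw [← h4, ← h3]
    ring
  have e1' : ∫ u in a'..b', F u = ∫ ξ in Ico a' b', gg f 1 T ξ * e1 (x 0 * ξ) := by
    rw [intervalIntegral.integral_of_le h1, ← integral_Ico_eq_integral_Ioc]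
    refine setIntegral_congr_fun measurableSet_Ico (fun u hu => ?_)
    have h5 : u ∈ Icc (-(T : ℝ)) T := ⟨by linarith [hu.1], by linarith [hu.2]⟩
    simp only [hFdef, gg]
    rw [indicator_of_mem h5, one_mul]
  have e2' : ∫ u in a'..b', F (-u) = ∫ ξ in Ico a' b', gg f (-1) T ξ * e1 (-(x 0) * ξ) := by
    rw [intervalIntegral.integral_of_le h1, ← integral_Ico_eq_integral_Ioc]
    refine setIntegral_congr_fun measurableSet_Ico (fun u hu => ?_)
    have h5 : u ∈ Icc (-(T : ℝ)) T := ⟨by linarith [hu.1], by linarith [hu.2]⟩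
    simp only [hFdef, gg]
    rw [indicator_of_mem h5, neg_one_mul, mul_neg, neg_mul]
  rw [e, e1', e2']
  exact enorm_add_le _ _

/-- the majorant -/
noncomputable def GT (q : ℝ) (f : E 1 → ℂ) (T : ℕ) (r : ℝ) : ℝ≥0∞ :=
  (VC q (gg f 1 T) r + VC q (gg f (-1) T) (-r)) + (VC q (gg f 1 T) (-r) + VC q (gg f (-1) T) r)

theorem term_le {q : ℝ} (hq : 2 < q) {f : E 1 → ℂ} (hf : Integrable f) (r : ℝ) (L : ℕ)
    (N : ℕ → ℝ) (hN : Monotone N) (T : ℕ) (hT : N L ≤ T) :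
    (∑ j ∈ Finset.range L,
      (∫⁻ θ, ‖S f (N (j + 1)) (r • (θ : E 1)) - S f (N j) (r • (θ : E 1))‖ₑ ^ 2
        ∂(sg 1)) ^ (q / 2)) ^ (1 / q) ≤ (sg 1 univ) ^ (1 / 2 : ℝ) * GT q f T r := by
  have hq0 : 0 < q := by linarith
  set M : ℕ → ℝ := fun j => max (N j) 0 with hM
  have hMm : Monotone M := fun a b h => max_le_max (hN h) le_rfl
  set A : ℝ → ℕ → ℝ≥0∞ := fun t j => ‖∫ ξ in Ico (M j) (M (j + 1)), gg f 1 T ξ * e1 (t * ξ)‖ₑ
    with hA
  set B : ℝ → ℕ → ℝ≥0∞ := fun t j =>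
    ‖∫ ξ in Ico (M j) (M (j + 1)), gg f (-1) T ξ * e1 (t * ξ)‖ₑ with hB
  have h1 : ∀ j ∈ Finset.range L, (∫⁻ θ, ‖S f (N (j + 1)) (r • (θ : E 1)) -
      S f (N j) (r • (θ : E 1))‖ₑ ^ 2 ∂(sg 1)) ^ (q / 2) ≤
      (sg 1 univ) ^ (q / 2) * ((A r j + B (-r) j) + (A (-r) j + B r j)) ^ q := by
    intro j hj
    have hjL : N (j + 1) ≤ T := (hN (Finset.mem_range.1 hj)).trans hT
    have h2 : ∀ θ : Metric.sphere (0 : E 1) 1, ‖S f (N (j + 1)) (r • (θ : E 1)) -
        S f (N j) (r • (θ : E 1))‖ₑ ≤ (A r j + B (-r) j) + (A (-r) j + B r j) := by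
      intro θ
      have h3 := diff_bd hf (hN (Nat.le_succ j)) T hjL (r • (θ : E 1))
      have h4 : |(r • (θ : E 1)) 0| = |r| := by
        rw [← norm_E1, norm_smul, norm_eq_of_mem_sphere θ, mul_one, Real.norm_eq_abs]
      refine h3.trans ?_
      rcases abs_eq_abs.1 h4 with h5 | h5
      · rw [h5]
        exact le_self_add
      · rw [h5, neg_neg]
        exact le_add_self
    have h5 : (∫⁻ θ, ‖S f (N (j + 1)) (r • (θ : E 1)) -
        S f (N j) (r • (θ : E 1))‖ₑ ^ 2 ∂(sg 1)) ≤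
        sg 1 univ * ((A r j + B (-r) j) + (A (-r) j + B r j)) ^ 2 := by
      calc (∫⁻ θ, ‖S f (N (j + 1)) (r • (θ : E 1)) -
          S f (N j) (r • (θ : E 1))‖ₑ ^ 2 ∂(sg 1)) ≤
          ∫⁻ _θ, ((A r j + B (-r) j) + (A (-r) j + B r j)) ^ 2 ∂(sg 1) := by
            refine lintegral_mono (fun θ => ?_)
            exact pow_le_pow_left' (h2 θ) 2
        _ = _ := by rw [lintegral_const, mul_comm]
    calc _ ≤ (sg 1 univ * ((A r j + B (-r) j) + (A (-r) j + B r j)) ^ 2) ^ (q / 2) :=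
          ENNReal.rpow_le_rpow h5 (by positivity)
      _ = _ := by
          rw [ENNReal.mul_rpow_of_nonneg _ _ (by positivity), ← ENNReal.rpow_natCast,
            ← ENNReal.rpow_mul]
          congr 2
          push_cast
          ring
  have hA' : ∀ t, (∑ j ∈ Finset.range L, A t j ^ q) ^ (1 / q) ≤ VC q (gg f 1 T) t := fun t =>
    le_iSup_of_le L (le_iSup_of_le M (le_iSup_of_le hMm le_rfl))
  have hB' : ∀ t, (∑ j ∈ Finset.range L, B t j ^ q) ^ (1 / q) ≤ VC q (gg f (-1) T) t := fun t =>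
    le_iSup_of_le L (le_iSup_of_le M (le_iSup_of_le hMm le_rfl))
  calc _ ≤ (∑ j ∈ Finset.range L,
        (sg 1 univ) ^ (q / 2) * ((A r j + B (-r) j) + (A (-r) j + B r j)) ^ q) ^ (1 / q) :=
        ENNReal.rpow_le_rpow (Finset.sum_le_sum h1) (by positivity)
    _ = (sg 1 univ) ^ (1 / 2 : ℝ) * (∑ j ∈ Finset.range L,
        ((A r j + B (-r) j) + (A (-r) j + B r j)) ^ q) ^ (1 / q) := by
        rw [← Finset.mul_sum, ENNReal.mul_rpow_of_nonneg _ _ (by positivity),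
          ← ENNReal.rpow_mul]
        congr 2
        field_simp
    _ ≤ _ := by
        unfold GT
        refine mul_le_mul_right ?_ _
        refine (ENNReal.Lp_add_le _ _ _ (by linarith)).trans (add_le_add ?_ ?_)
        · exact (ENNReal.Lp_add_le _ _ _ (by linarith)).trans (add_le_add (hA' r) (hB' (-r)))
        · exact (ENNReal.Lp_add_le _ _ _ (by linarith)).trans (add_le_add (hA' (-r)) (hB' r))

theorem sq4 (a b c d : ℝ≥0∞) :
    ((a + b) + (c + d)) ^ 2 ≤ 4 * ((a ^ 2 + b ^ 2) + (c ^ 2 + d ^ 2)) := by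
  have h : ∀ x y : ℝ≥0∞, (x + y) ^ 2 ≤ 2 * (x ^ 2 + y ^ 2) := by
    intro x y
    have h1 := ENNReal.rpow_add_le_mul_rpow_add_rpow x y (p := 2) (by norm_num)
    rw [show (2 : ℝ) - 1 = 1 from by norm_num, ENNReal.rpow_one] at h1
    simpa only [ENNReal.rpow_two] using h1
  calc ((a + b) + (c + d)) ^ 2 ≤ 2 * ((a + b) ^ 2 + (c + d) ^ 2) := h _ _
    _ ≤ 2 * (2 * (a ^ 2 + b ^ 2) + 2 * (c ^ 2 + d ^ 2)) := by
        gcongr
        · exact h _ _
        · exact h _ _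
    _ = _ := by ring

end RA1_

open RA1_ in
theorem p_RA1 (h1 : T_C4) : T_RA1 := by
  obtain ⟨C, hC⟩ := h1
  have hfin : sg 1 univ ≠ ∞ := by
    unfold Pool.Agent.CRN.sg
    exact measure_ne_top _ _
  refine ⟨16 * (sg 1 univ).toNNReal * C, ?_⟩
  intro q hq hq4 f hf
  have hq0 : 0 < q := by linarith
  set W : ℝ≥0∞ := C * ENNReal.ofReal (kr q ^ 6) * ∫⁻ x, ‖f x‖ₑ ^ 2 with hW
  have hm : ∀ (s : ℝ) (T : ℕ), Measurable (VC q (gg f s T)) :=
    fun s T => VC_meas q (gg_good hf.int s T).ig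
  have hm' : ∀ (s : ℝ) (T : ℕ), Measurable (fun r => VC q (gg f s T) (-r)) :=
    fun s T => (hm s T).comp measurable_neg
  have hG : ∀ T, Measurable (GT q f T) := fun T =>
    ((hm 1 T).add (hm' (-1) T)).add ((hm' 1 T).add (hm (-1) T))
  have hV : ∀ s : ℝ, (s = 1 ∨ s = -1) → ∀ T : ℕ, ∫⁻ x, VC q (gg f s T) x ^ 2 ≤ W := by
    intro s hs T
    refine (hC q hq hq4 _ (gg_good hf.int s T)).trans ?_
    rw [hW]
    exact mul_le_mul_right (gg_sq hf hs T) _
  have hV' : ∀ s : ℝ, (s = 1 ∨ s = -1) → ∀ T : ℕ, ∫⁻ x, VC q (gg f s T) (-x) ^ 2 ≤ W := by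
    intro s hs T
    rw [lintegral_neg_eq_self (μ := volume) (fun x => VC q (gg f s T) x ^ 2)]
    exact hV s hs T
  have hGT : ∀ T, ∫⁻ r in Ioi (0 : ℝ), ((sg 1 univ) ^ (1 / 2 : ℝ) * GT q f T r) ^ 2 ≤
      16 * sg 1 univ * W := by
    intro T
    have e0 : ((sg 1 univ) ^ (1 / 2 : ℝ)) ^ 2 = sg 1 univ := by
      rw [← ENNReal.rpow_natCast, ← ENNReal.rpow_mul]
      norm_num
    calc ∫⁻ r in Ioi (0 : ℝ), ((sg 1 univ) ^ (1 / 2 : ℝ) * GT q f T r) ^ 2
        ≤ ∫⁻ r : ℝ, ((sg 1 univ) ^ (1 / 2 : ℝ) * GT q f T r) ^ 2 :=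
          setLIntegral_le_lintegral _ _
      _ ≤ ∫⁻ r : ℝ, sg 1 univ * (4 * ((VC q (gg f 1 T) r ^ 2 + VC q (gg f (-1) T) (-r) ^ 2) +
            (VC q (gg f 1 T) (-r) ^ 2 + VC q (gg f (-1) T) r ^ 2))) := by
          refine lintegral_mono (fun r => ?_)
          beta_reduce
          rw [mul_pow, e0]
          exact mul_le_mul_right (sq4 _ _ _ _) _
      _ = sg 1 univ * (4 * (((∫⁻ r : ℝ, VC q (gg f 1 T) r ^ 2) +
            ∫⁻ r : ℝ, VC q (gg f (-1) T) (-r) ^ 2) +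
            ((∫⁻ r : ℝ, VC q (gg f 1 T) (-r) ^ 2) + ∫⁻ r : ℝ, VC q (gg f (-1) T) r ^ 2))) := by
          have m1 := (hm 1 T).pow_const 2
          have m2 := (hm' (-1) T).pow_const 2
          have m3 := (hm' 1 T).pow_const 2
          have m4 := (hm (-1) T).pow_const 2
          have m5 : Measurable (fun x => VC q (gg f 1 T) x ^ 2 +
            VC q (gg f (-1) T) (-x) ^ 2) := m1.add m2
          have m6 : Measurable (fun x => (VC q (gg f 1 T) x ^ 2 + VC q (gg f (-1) T) (-x) ^ 2) +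
            (VC q (gg f 1 T) (-x) ^ 2 + VC q (gg f (-1) T) x ^ 2)) := m5.add (m3.add m4)
          rw [lintegral_const_mul _ (m6.const_mul 4), lintegral_const_mul _ m6,
            lintegral_add_left m5, lintegral_add_left m1, lintegral_add_left m3]
      _ ≤ sg 1 univ * (4 * ((W + W) + (W + W))) := by
          refine mul_le_mul_right (mul_le_mul_right (add_le_add (add_le_add ?_ ?_)
            (add_le_add ?_ ?_)) _) _
          · exact hV 1 (Or.inl rfl) T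
          · exact hV' (-1) (Or.inr rfl) T
          · exact hV' 1 (Or.inl rfl) T
          · exact hV (-1) (Or.inr rfl) T
      _ = _ := by ring
  have hpt : ∀ r, VS q f r ^ 2 ≤
      liminf (fun T : ℕ => ((sg 1 univ) ^ (1 / 2 : ℝ) * GT q f T r) ^ 2) atTop := by
    intro r
    set X : ℝ≥0∞ := liminf (fun T : ℕ => ((sg 1 univ) ^ (1 / 2 : ℝ) * GT q f T r) ^ 2) atTop
      with hX
    have h : VS q f r ≤ X ^ (1 / 2 : ℝ) := by
      unfold Pool.Agent.VRR.VS
      refine iSup_le fun L => iSup_le fun N => iSup_le fun hN => ?_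
      set y : ℝ≥0∞ := (∑ j ∈ Finset.range L,
        (∫⁻ θ, ‖S f (N (j + 1)) (r • (θ : E 1)) - S f (N j) (r • (θ : E 1))‖ₑ ^ 2
          ∂(sg 1)) ^ (q / 2)) ^ (1 / q) with hy
      have h3 : y ^ 2 ≤ X := by
        refine le_liminf_of_le (by isBoundedDefault) ?_
        obtain ⟨T0, hT0⟩ := exists_nat_ge (N L)
        filter_upwards [eventually_ge_atTop T0] with T hT
        exact pow_le_pow_left' (term_le hq hf.int r L N hN T
          (hT0.trans (by exact_mod_cast hT))) 2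
      calc y = (y ^ 2) ^ (1 / 2 : ℝ) := by
            rw [← ENNReal.rpow_natCast, ← ENNReal.rpow_mul]
            norm_num
        _ ≤ X ^ (1 / 2 : ℝ) := ENNReal.rpow_le_rpow h3 (by norm_num)
    calc VS q f r ^ 2 ≤ (X ^ (1 / 2 : ℝ)) ^ 2 := pow_le_pow_left' h 2
      _ = X := by
          rw [← ENNReal.rpow_natCast, ← ENNReal.rpow_mul]
          norm_num
  calc ∫⁻ r in Ioi (0 : ℝ), VS q f r ^ 2
      ≤ ∫⁻ r in Ioi (0 : ℝ),
        liminf (fun T : ℕ => ((sg 1 univ) ^ (1 / 2 : ℝ) * GT q f T r) ^ 2) atTop :=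
        lintegral_mono (fun r => hpt r)
    _ ≤ liminf (fun T : ℕ => ∫⁻ r in Ioi (0 : ℝ),
        ((sg 1 univ) ^ (1 / 2 : ℝ) * GT q f T r) ^ 2) atTop :=
        lintegral_liminf_le (fun T => ((hG T).const_mul _).pow_const 2)
    _ ≤ 16 * sg 1 univ * W := by
        refine liminf_le_of_le (by isBoundedDefault) (fun b hb => ?_)
        obtain ⟨T, hT⟩ := hb.exists
        exact hT.trans (hGT T)
    _ = _ := by
        rw [hW]
        push_cast
        rw [ENNReal.coe_toNNReal hfin]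
        ring

end Pool.Agent.CYL
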