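import Pool.Agent.CYL.Targets2

set_option autoImplicit false

/-!
# CYL, target VTG: Minkowski's inequality for the variation of the slices
-/

namespace Pool.Agent.CYL

open MeasureTheory FourierTransform Set Filter Topology
open scoped ENNReal NNReal ComplexConjugate
open Pool.Agent.MBS (E ex S)
open Pool.Agent.CAR (e1)
open Pool.Agent.CRN (Nice sg T_POLN)

namespace VTG_

/-- Minkowski's inequality in `ℓ^r`, integral form. -/
lemma mink {r : ℝ} (hr : 1 < r) {α : Type} [MeasurableSpace α] (μ : Measure α) (s : Finset ℕ)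
    (f : ℕ → α → ℝ≥0∞) (hf : ∀ j ∈ s, AEMeasurable (f j) μ) :
    (∑ j ∈ s, (∫⁻ x, f j x ∂μ) ^ r) ^ (1 / r) ≤
      ∫⁻ x, (∑ j ∈ s, f j x ^ r) ^ (1 / r) ∂μ := by
  have hr0 : 0 < r := by linarith
  have single_le : ∀ {j : ℕ}, j ∈ s → ∀ x : ℕ → ℝ≥0∞, x j ≤ (∑ i ∈ s, x i ^ r) ^ (1 / r) := by
    intro j hj x
    calc x j = (x j ^ r) ^ (1 / r) := by
          rw [← ENNReal.rpow_mul, mul_one_div_cancel hr0.ne', ENNReal.rpow_one]
      _ ≤ _ := ENNReal.rpow_le_rpow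
          (Finset.single_le_sum (f := fun i => x i ^ r) (fun i _ => zero_le) hj) (by positivity)
  set a : ℕ → ℝ≥0∞ := fun j => ∫⁻ x, f j x ∂μ with ha
  set T : ℝ≥0∞ := ∑ j ∈ s, a j ^ r with hT
  set I : ℝ≥0∞ := ∫⁻ x, (∑ j ∈ s, f j x ^ r) ^ (1 / r) ∂μ with hI
  show T ^ (1 / r) ≤ I
  by_cases h0 : T = 0
  · rw [h0, ENNReal.zero_rpow_of_pos (by positivity)]
    exact zero_le
  by_cases h1 : T = ⊤
  · obtain ⟨j, hj, hj'⟩ := ENNReal.sum_eq_top.mp h1
    have h2 : a j = ⊤ := by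
      by_contra hne
      exact (ENNReal.rpow_ne_top_of_nonneg hr0.le hne) hj'
    have h3 : a j ≤ I := lintegral_mono fun x => single_le hj (fun i => f i x)
    rw [h2] at h3
    rw [top_le_iff.mp h3]
    exact le_top
  have hpq : (r / (r - 1)).HolderConjugate r := by
    have h := Real.HolderConjugate.conjExponent (p := r) (by linarith)
    have h' := h.symm
    simpa [Real.conjExponent] using h'
  have hpt : ∀ x, ∑ j ∈ s, a j ^ (r - 1) * f j x ≤
      T ^ (1 - 1 / r) * (∑ j ∈ s, f j x ^ r) ^ (1 / r) := by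
    intro x
    have h2 := ENNReal.inner_le_Lp_mul_Lq s (fun j => a j ^ (r - 1)) (fun j => f j x) hpq
    have h3 : ∀ j, (a j ^ (r - 1)) ^ (r / (r - 1)) = a j ^ r := by
      intro j
      rw [← ENNReal.rpow_mul, mul_div_cancel₀ _ (by linarith : r - 1 ≠ 0)]
    simp only [h3] at h2
    have h5 : 1 / (r / (r - 1)) = 1 - 1 / r := by
      rw [one_div_div]
      field_simp
    rw [h5] at h2
    exact h2
  have h6 : T ≤ T ^ (1 - 1 / r) * I := by
    calc T = ∑ j ∈ s, a j ^ (r - 1) * a j := by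
          rw [hT]
          refine Finset.sum_congr rfl fun j _ => ?_
          conv_lhs => rw [show r = (r - 1) + 1 by ring]
          rw [ENNReal.rpow_add_of_nonneg _ _ (by linarith) (by norm_num), ENNReal.rpow_one]
      _ = ∑ j ∈ s, ∫⁻ x, a j ^ (r - 1) * f j x ∂μ :=
          Finset.sum_congr rfl fun j hj => (lintegral_const_mul'' _ (hf j hj)).symm
      _ = ∫⁻ x, ∑ j ∈ s, a j ^ (r - 1) * f j x ∂μ :=
          (lintegral_finsetSum' s fun j hj => (hf j hj).const_mul _).symm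
      _ ≤ ∫⁻ x, T ^ (1 - 1 / r) * (∑ j ∈ s, f j x ^ r) ^ (1 / r) ∂μ := lintegral_mono hpt
      _ = T ^ (1 - 1 / r) * I :=
          lintegral_const_mul' _ _ (ENNReal.rpow_ne_top_of_nonneg (by
            rw [sub_nonneg, div_le_one hr0]
            linarith) h1)
  have h7 : T = T ^ (1 - 1 / r) * T ^ (1 / r) := by
    rw [← ENNReal.rpow_add _ _ h0 h1, sub_add_cancel, ENNReal.rpow_one]
  have h8 : T ^ (1 - 1 / r) ≠ 0 := by
    simp [ENNReal.rpow_eq_zero_iff, h0, h1]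
  have h9 : T ^ (1 - 1 / r) ≠ ⊤ := ENNReal.rpow_ne_top_of_nonneg (by
    rw [sub_nonneg, div_le_one hr0]
    linarith) h1
  by_contra hcon
  push Not at hcon
  have h10 : T ^ (1 - 1 / r) * I < T ^ (1 - 1 / r) * T ^ (1 / r) :=
    ENNReal.mul_lt_mul_right h8 h9 hcon
  rw [← h7] at h10
  exact absurd h6 (not_le.mpr h10)

lemma sq_root (x : ℝ≥0∞) {q : ℝ} (hq : 0 < q) : (x ^ (1 / q)) ^ 2 = x ^ (1 / (q / 2)) := by
  rw [← ENNReal.rpow_natCast, ← ENNReal.rpow_mul]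
  congr 1
  field_simp
  norm_num

lemma root_sq (x : ℝ≥0∞) : (x ^ 2) ^ (1 / 2 : ℝ) = x := by
  rw [← ENNReal.rpow_natCast, ← ENNReal.rpow_mul]
  norm_num

lemma sq_half (x : ℝ≥0∞) : (x ^ (1 / 2 : ℝ)) ^ 2 = x := by
  rw [← ENNReal.rpow_natCast, ← ENNReal.rpow_mul]
  norm_num

lemma sl_mono {m : ℕ} (η : E m) : Monotone fun R : ℝ => sl R η := by
  intro R R' h
  simp only [sl]
  by_cases h1 : ‖η‖ < R
  · rw [if_pos h1, if_pos (lt_of_lt_of_le h1 h)]
    apply Real.sqrt_le_sqrt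
    have h2 := norm_nonneg η
    nlinarith
  · rw [if_neg h1]
    split_ifs with h2
    · linarith [Real.sqrt_nonneg (R' ^ 2 - ‖η‖ ^ 2)]
    · exact le_rfl

lemma sl_meas {m : ℕ} (R : ℝ) : Measurable fun η : E m => sl R η := by
  unfold sl
  exact Measurable.ite (measurableSet_lt measurable_norm measurable_const)
    (by fun_prop) measurable_const

lemma pm {d m : ℕ} (r : ℝ) :
    Measurable fun p : Metric.sphere (0 : E d) 1 × E m => (p.2, r • (p.1 : E d)) := by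
  have h5 : Continuous fun p : Metric.sphere (0 : E d) 1 × E m => (p.2, r • (p.1 : E d)) := by
    fun_prop
  exact h5.measurable

lemma gsm {n d m : ℕ} (a : E d →ₗᵢ[ℝ] E n) (b : E m →ₗᵢ[ℝ] E n) (f : E n → ℂ) (r R : ℝ)
    (h3 : Measurable (fun q : E m × E d => GS a b f (sl R q.1) q.1 q.2)) :
    Measurable fun p : Metric.sphere (0 : E d) 1 × E m =>
      GS a b f (sl R p.2) p.2 (r • (p.1 : E d)) := by
  have h6 := h3.comp (pm (d := d) (m := m) r)
  simp only [Function.comp_def] at h6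
  exact h6

/-- the integrand -/
noncomputable def DD {n d m : ℕ} (a : E d →ₗᵢ[ℝ] E n) (b : E m →ₗᵢ[ℝ] E n) (f : E n → ℂ)
    (r R R' : ℝ) (θ : Metric.sphere (0 : E d) 1) (η : E m) : ℝ≥0∞ :=
  ‖GS a b f (sl R' η) η (r • (θ : E d)) - GS a b f (sl R η) η (r • (θ : E d))‖ₑ ^ 2

lemma DD_meas (h2 : T_MEA) {n d m : ℕ} (a : E d →ₗᵢ[ℝ] E n) (b : E m →ₗᵢ[ℝ] E n)
    {f : E n → ℂ} (hf : Nice f) (r R R' : ℝ) :
    Measurable fun p : Metric.sphere (0 : E d) 1 × E m => DD a b f r R R' p.1 p.2 := by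
  have h : ∀ R : ℝ, Measurable (fun q : E m × E d => GS a b f (sl R q.1) q.1 q.2) := fun R =>
    h2 n d m a b f hf (fun p => sl R p.1) ((sl_meas R).comp measurable_fst)
  unfold DD
  exact ((gsm a b f r R' (h R')).sub (gsm a b f r R (h R))).enorm.pow_const 2

end VTG_

open VTG_ in
theorem p_VTG (h1 : T_PLD) (h2 : T_MEA) : T_VTG := by
  intro n d m a b f q hs hf hd hq2 _ r
  have hq0 : 0 < q := by linarith
  have hfin : IsFiniteMeasure (sg d) := by
    unfold sg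
    infer_instance
  -- the functions of `θ`, `η`
  have hDm := DD_meas h2 a b hf r
  obtain ⟨A, hA⟩ : ∃ A : ℝ → ℝ → E m → ℝ≥0∞, ∀ R R' η,
      A R R' η = ∫⁻ θ, DD a b f r R R' θ η ∂(sg d) := ⟨_, fun _ _ _ => rfl⟩
  have hAm : ∀ R R' : ℝ, Measurable (A R R') := by
    intro R R'
    have h3 := (hDm R R').lintegral_prod_left' (μ := sg d)
    have h4 : A R R' = fun η => ∫⁻ θ, DD a b f r R R' θ η ∂(sg d) := funext fun η => hA R R' η
    rw [h4]
    exact h3
  have hI : ∀ R R' : ℝ, (∫⁻ θ, ∫⁻ y, ‖S f R' (a (r • (θ : E d)) + b y) -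
      S f R (a (r • (θ : E d)) + b y)‖ₑ ^ 2 ∂volume ∂(sg d)) = ∫⁻ η, A R R' η := by
    intro R R'
    have h3 : ∀ θ : Metric.sphere (0 : E d) 1, (∫⁻ y, ‖S f R' (a (r • (θ : E d)) + b y) -
        S f R (a (r • (θ : E d)) + b y)‖ₑ ^ 2) = ∫⁻ η, DD a b f r R R' θ η := fun θ =>
      h1 n d m a b f hs hf hd R R' (r • (θ : E d))
    simp only [h3, hA]
    exact lintegral_lintegral_swap (hDm R R').aemeasurable
  set B : ℝ≥0∞ := ∫⁻ η, GV a b q f η r ^ 2 with hB
  have key : VT a b q f r ≤ B ^ (1 / 2 : ℝ) := by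
    refine iSup_le fun L => iSup_le fun N => iSup_le fun hN => ?_
    rw [← root_sq ((∑ j ∈ Finset.range L, (∫⁻ θ, ∫⁻ y, ‖S f (N (j + 1))
      (a (r • (θ : E d)) + b y) - S f (N j) (a (r • (θ : E d)) + b y)‖ₑ ^ 2
      ∂volume ∂(sg d)) ^ (q / 2)) ^ (1 / q))]
    refine ENNReal.rpow_le_rpow ?_ (by norm_num)
    rw [sq_root _ hq0]
    simp only [hI]
    refine (mink (r := q / 2) (by linarith) volume (Finset.range L)
      (fun j => A (N j) (N (j + 1))) fun j _ => (hAm _ _).aemeasurable).trans ?_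
    refine lintegral_mono fun η => ?_
    rw [← sq_root _ hq0]
    refine pow_le_pow_left' ?_ 2
    simp only [hA]
    exact le_iSup_of_le L (le_iSup_of_le (fun j => sl (N j) η)
      (le_iSup_of_le ((sl_mono η).comp hN) le_rfl))
  calc VT a b q f r ^ 2 ≤ (B ^ (1 / 2 : ℝ)) ^ 2 := pow_le_pow_left' key 2
    _ = B := sq_half B

end Pool.Agent.CYL
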