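import Pool.Agent.CYL.Targets2

set_option autoImplicit false

/-!
# CYL, VTI: the `V^q` theorem on cylinders
-/

namespace Pool.Agent.CYL

open MeasureTheory FourierTransform Set Filter Topology
open scoped ENNReal NNReal ComplexConjugate
open Pool.Agent.MBS (E ex S)
open Pool.Agent.CRN (Nice sg T_POLN)
open Pool.Agent.VRR (kr VS VC T_RAV T_C4 T_REX)

namespace VTI_

theorem one_le_kr {q : ℝ} (hq : 2 < q) : 1 ≤ kr q := by
  unfold kr
  rw [le_div_iff₀ (by linarith)]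
  linarith

/-- all dimensions -/
theorem low (h4 : T_RAV) (h5 : T_RA1) {d : ℕ} (hd : 1 ≤ d) : ∃ C : ℝ≥0, ∀ q : ℝ, 2 < q → q ≤ 4 →
    ∀ g : E d → ℂ, Nice g → ∫⁻ r in Ioi (0 : ℝ), VS q g r ^ 2 * ENNReal.ofReal (r ^ (d - 1)) ≤
      C * ENNReal.ofReal (kr q ^ 14) * ∫⁻ x, ‖g x‖ₑ ^ 2 := by
  rcases hd.eq_or_lt with h | h
  · subst h
    obtain ⟨C, hC⟩ := h5
    refine ⟨C, fun q hq hq4 g hg => ?_⟩
    simp only [Nat.sub_self, pow_zero, ENNReal.ofReal_one, mul_one]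
    refine (hC q hq hq4 g hg).trans ?_
    have h1 : kr q ^ 6 ≤ kr q ^ 14 := pow_le_pow_right₀ (one_le_kr hq) (by norm_num)
    have h2 : ENNReal.ofReal (kr q ^ 6) ≤ ENNReal.ofReal (kr q ^ 14) :=
      ENNReal.ofReal_le_ofReal h1
    exact mul_le_mul' (mul_le_mul' le_rfl h2) le_rfl
  · exact h4 d h

theorem GV_eq {n d m : ℕ} (a : E d →ₗᵢ[ℝ] E n) (b : E m →ₗᵢ[ℝ] E n) (q : ℝ) (f : E n → ℂ)
    (η : E m) (h : ∀ (ρ : ℝ) (t : E d), S (PF a b f η) ρ t = GS a b f ρ η t) (r : ℝ) :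
    GV a b q f η r = VS q (PF a b f η) r := by
  unfold GV VS
  simp only [h]

end VTI_

open VTI_ in
/-- **VTI** -/
theorem p_VTI (h1 : T_VTG) (h2 : T_GVM) (h3 : T_PFT) (h4 : T_RAV) (h5 : T_RA1) : T_VTI := by
  intro d hd
  obtain ⟨C, hC⟩ := low h4 h5 hd
  refine ⟨C, fun q hq hq4 n m a b f hs hf => ?_⟩
  obtain ⟨-, hae, hpl⟩ := h3 n d m a b f hs hf
  have hK : (C : ℝ≥0∞) * ENNReal.ofReal (kr q ^ 14) ≠ ⊤ :=
    ENNReal.mul_ne_top ENNReal.coe_ne_top ENNReal.ofReal_ne_top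
  have hm : Measurable fun p : ℝ × E m =>
      GV a b q f p.2 p.1 ^ 2 * ENNReal.ofReal (p.1 ^ (d - 1)) := by
    have h := (h2 n d m a b f q hf hd hq hq4).comp measurable_swap
    refine (h.pow_const 2).mul ?_
    exact (measurable_fst.pow_const _).ennreal_ofReal
  calc ∫⁻ r in Ioi (0 : ℝ), VT a b q f r ^ 2 * ENNReal.ofReal (r ^ (d - 1))
      ≤ ∫⁻ r in Ioi (0 : ℝ), ∫⁻ η, GV a b q f η r ^ 2 * ENNReal.ofReal (r ^ (d - 1)) := by
        refine lintegral_mono fun r => ?_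
        change VT a b q f r ^ 2 * ENNReal.ofReal (r ^ (d - 1)) ≤
          ∫⁻ η, GV a b q f η r ^ 2 * ENNReal.ofReal (r ^ (d - 1))
        rw [lintegral_mul_const' _ _ ENNReal.ofReal_ne_top]
        exact mul_le_mul' (h1 n d m a b f q hs hf hd hq hq4 r) le_rfl
    _ = ∫⁻ η, ∫⁻ r in Ioi (0 : ℝ), GV a b q f η r ^ 2 * ENNReal.ofReal (r ^ (d - 1)) :=
        lintegral_lintegral_swap hm.aemeasurable
    _ ≤ ∫⁻ η, (C * ENNReal.ofReal (kr q ^ 14)) * ∫⁻ t, ‖PF a b f η t‖ₑ ^ 2 := by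
        refine lintegral_mono_ae ?_
        filter_upwards [hae] with η hη
        simp only [GV_eq a b q f η hη.2]
        exact hC q hq hq4 _ hη.1
    _ = (C * ENNReal.ofReal (kr q ^ 14)) * ∫⁻ η, ∫⁻ t, ‖PF a b f η t‖ₑ ^ 2 :=
        lintegral_const_mul' _ _ hK
    _ = _ := by rw [hpl]

end Pool.Agent.CYL
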