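import Pool.Agent.CYL.All
import Pool.Agent.CYL.P_RA1
import Pool.Agent.CYL.P_PLD
import Pool.Agent.CYL.P_GVM
import Pool.Agent.CYL.P_VTG
import Pool.Agent.CYL.P_VTI
import Pool.Agent.CYL.P_NVX
import Pool.Agent.CYL.P_NVC
import Pool.Agent.CYL.P_CVF

set_option autoImplicit false

/-!
# CYL: assembly of the second part

The hypotheses are `Pool.Agent.VRR.q_RAV`, `q_C4`, `p_REX` (`Pool/Agent/VRR/All.lean`).
-/

namespace Pool.Agent.CYL

open MeasureTheory FourierTransform Set Filter Topology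
open scoped ENNReal NNReal ComplexConjugate
open Pool.Agent.MBS (E ex S)
open Pool.Agent.CRN (Nice)

/-- the `V^q` theorem with values in `L²` of the cylinders -/
theorem q_VTI (h1 : Pool.Agent.VRR.T_RAV) (h2 : Pool.Agent.VRR.T_C4) : T_VTI :=
  p_VTI (p_VTG (p_PLD p_SPL p_MEA) p_MEA) (p_GVM p_MEA) (p_PFT p_SPL) h1 (p_RA1 h2)

/-- radii with few values, up to `A/|x - p|`, on the cylinders around an affine subspace -/
theorem q_CVF (h1 : Pool.Agent.VRR.T_RAV) (h2 : Pool.Agent.VRR.T_C4)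
    (h3 : Pool.Agent.VRR.T_REX) : T_CVF :=
  p_CVF (p_NVC (q_VTI h1 h2) (p_NVX h3) Pool.Agent.CRN.p_POLN) Pool.Agent.CRR.q_OSC p_GEO p_SPL

end Pool.Agent.CYL
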