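import Pool.Agent.CYL.Targets3
import Pool.Agent.CYL.P_GEO

set_option autoImplicit false

/-! CYL-GE2: orthonormal bases, codimension two. -/

namespace Pool.Agent.CYL

open MeasureTheory FourierTransform Set Filter Topology
open scoped ENNReal NNReal ComplexConjugate
open Pool.Agent.MBS (E ex S)

open GEO_ in
theorem p_GE2 : T_GE2 := by
  intro n W hW
  have h1 : Module.finrank ℝ Wᗮ = 2 := by
    have := Submodule.finrank_add_finrank_orthogonal W
    rw [finrank_euclideanSpace_fin] at this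
    omega
  suffices H : ∀ d : ℕ, Module.finrank ℝ Wᗮ = d →
      ∃ (m : ℕ) (a : E d →ₗᵢ[ℝ] E n) (b : E m →ₗᵢ[ℝ] E n), Spl a b ∧ (∀ y, b y ∈ W) ∧
        ∀ (t : E d) (y : E m), Metric.infDist (a t + b y) (W : Set (E n)) = ‖t‖ from H 2 h1
  rintro d rfl
  exact ⟨_, emb Wᗮ, emb W, spl W, emb_mem W, dist_eq W⟩

end Pool.Agent.CYL
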