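import Pool.Agent.CYL.Targets3
import Pool.Agent.CRW.P_OSM

set_option autoImplicit false

/-!
# CYL, target GRC: the planar growth theorem on the cylinders, by slicing
-/

namespace Pool.Agent.CYL

open MeasureTheory FourierTransform Set Filter Topology
open scoped ENNReal NNReal ComplexConjugate
open Pool.Agent.MBS (E ex S)
open Pool.Agent.CRN (Nice)
open Pool.Agent.CRW (L3)

namespace GRC_

theorem L3_mono {s t : ℝ} (hs : 0 ≤ s) (hst : s ≤ t) : L3 s ≤ L3 t := by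
  unfold L3
  have h1 : 0 ≤ Real.log (3 + s) := Real.log_nonneg (by linarith)
  have h2 : Real.log (3 + s) ≤ Real.log (3 + t) := Real.log_le_log (by linarith) (by linarith)
  exact Real.log_le_log (by linarith) (by linarith)

theorem L3_pos {s : ℝ} (hs : 0 ≤ s) : 0 < L3 s := by
  unfold L3
  have h1 : 0 ≤ Real.log (3 + s) := Real.log_nonneg (by linarith)
  exact Real.log_pos (by linarith)

theorem L3_meas : Measurable L3 := by
  unfold L3
  exact Real.measurable_log.comp (measurable_const.add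
    (Real.measurable_log.comp (measurable_const.add measurable_id)))

theorem L3_cont (c : ℝ) (hc : 0 ≤ c) : Continuous fun ρ : ℝ => L3 (|ρ| * c) := by
  unfold L3
  have h0 : ∀ ρ : ℝ, 0 ≤ |ρ| * c := fun ρ => mul_nonneg (abs_nonneg _) hc
  have h1 : Continuous fun ρ : ℝ => Real.log (3 + |ρ| * c) :=
    Continuous.log (by fun_prop) fun ρ => by have := h0 ρ; positivity
  refine Continuous.log (continuous_const.add h1) fun ρ => ?_
  have h2 : 0 ≤ Real.log (3 + |ρ| * c) := Real.log_nonneg (by linarith [h0 ρ])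
  positivity

/-- the supremum over rational radii -/
noncomputable def H {n m : ℕ} (a : E 2 →ₗᵢ[ℝ] E n) (b : E m →ₗᵢ[ℝ] E n) (f : E n → ℂ)
    (q : E m × E 2) : ℝ≥0∞ :=
  ⨆ r : ℚ, ENNReal.ofReal (‖GS a b f r q.1 q.2‖ / L3 (|(r : ℝ)| * ‖q.2‖) ^ 6)

theorem H_meas (h : T_MEA) {n m : ℕ} (a : E 2 →ₗᵢ[ℝ] E n) (b : E m →ₗᵢ[ℝ] E n) (f : E n → ℂ)
    (hf : Nice f) : Measurable (H a b f) := by
  unfold H
  refine Measurable.iSup fun r => ENNReal.measurable_ofReal.comp ?_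
  refine Measurable.div (h n 2 m a b f hf (fun _ => r) measurable_const).norm ?_
  exact (L3_meas.comp (measurable_const.mul measurable_snd.norm)).pow_const 6

theorem div_eq' {z : ℂ} {c : ℝ} (hc : 0 < c) :
    ‖z‖ₑ / ENNReal.ofReal c = ENNReal.ofReal (‖z‖ / c) := by
  rw [ENNReal.ofReal_div_of_pos hc, ofReal_norm]

theorem sq_eq' {z : ℂ} {c : ℝ} (hc : 0 < c) :
    (ENNReal.ofReal (c ^ 12))⁻¹ * ‖z‖ₑ ^ 2 = ENNReal.ofReal (‖z‖ / c ^ 6) ^ 2 := by
  rw [← ENNReal.ofReal_inv_of_pos (by positivity), ← ofReal_norm,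
    ← ENNReal.ofReal_pow (norm_nonneg _), ← ENNReal.ofReal_pow (by positivity),
    ← ENNReal.ofReal_mul (by positivity)]
  congr 1
  field_simp

/-- every radius is bounded by the supremum over rational radii -/
theorem le_H {n m : ℕ} {a : E 2 →ₗᵢ[ℝ] E n} {b : E m →ₗᵢ[ℝ] E n} {f : E n → ℂ} {η : E m}
    (hN : Nice (PF a b f η))
    (hS : ∀ (ρ : ℝ) (t : E 2), S (PF a b f η) ρ t = GS a b f ρ η t) (t : E 2) (ρ : ℝ) :
    ENNReal.ofReal (‖GS a b f ρ η t‖ / L3 (|ρ| * ‖t‖) ^ 6) ≤ H a b f (η, t) := by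
  have hcont : Continuous fun ρ : ℝ =>
      ENNReal.ofReal (‖GS a b f ρ η t‖ / L3 (|ρ| * ‖t‖) ^ 6) := by
    refine ENNReal.continuous_ofReal.comp ?_
    have e : (fun ρ : ℝ => ‖GS a b f ρ η t‖) = fun ρ : ℝ => ‖S (PF a b f η) ρ t‖ := by
      funext ρ
      rw [hS]
    have h1 : Continuous fun ρ : ℝ => ‖GS a b f ρ η t‖ := by
      rw [e]
      exact (Pool.Agent.CRW.OSM_.S_contR hN t).norm
    refine h1.div ((L3_cont _ (norm_nonneg t)).pow 6) fun ρ => ?_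
    have := L3_pos (mul_nonneg (abs_nonneg ρ) (norm_nonneg t))
    positivity
  refine Rat.denseRange_cast.induction_on (p := fun ρ : ℝ =>
    ENNReal.ofReal (‖GS a b f ρ η t‖ / L3 (|ρ| * ‖t‖) ^ 6) ≤ H a b f (η, t)) ρ
    (isClosed_le hcont continuous_const) fun r => ?_
  exact le_iSup (fun r : ℚ =>
    ENNReal.ofReal (‖GS a b f r η t‖ / L3 (|(r : ℝ)| * ‖t‖) ^ 6)) r

/-- the supremum over rational radii is at most the supremum over all radii -/
theorem H_le {n m : ℕ} {a : E 2 →ₗᵢ[ℝ] E n} {b : E m →ₗᵢ[ℝ] E n} {f : E n → ℂ} {η : E m}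
    (hS : ∀ (ρ : ℝ) (t : E 2), S (PF a b f η) ρ t = GS a b f ρ η t) (t : E 2) :
    H a b f (η, t) ≤ ⨆ (R : ℝ) (_ : 0 < R),
      ‖S (PF a b f η) R t‖ₑ / ENNReal.ofReal (L3 (R * ‖t‖) ^ 6) := by
  refine iSup_le fun r => ?_
  simp only
  rw [← hS]
  rcases le_or_gt (r : ℝ) 0 with h | h
  · rw [Pool.Agent.CRW.OSM_.S_nonpos _ h]
    simp
  · have hp : 0 < L3 ((r : ℝ) * ‖t‖) := L3_pos (mul_nonneg h.le (norm_nonneg t))
    rw [abs_of_pos h, ← div_eq' (by positivity)]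
    exact le_iSup₂ (f := fun (R : ℝ) (_ : 0 < R) =>
      ‖S (PF a b f η) R t‖ₑ / ENNReal.ofReal (L3 (R * ‖t‖) ^ 6)) (r : ℝ) h

end GRC_

open GRC_ in
theorem p_GRC (_h1 : T_SPL) (h2 : T_PFT) (h3 : T_MEA) (h4 : T_PLY) : T_GRC := by
  rintro ⟨C, hC⟩
  refine ⟨C, fun n m a b f hs hf => ?_⟩
  obtain ⟨-, hae, hpl⟩ := h2 n 2 m a b f hs hf
  have key : ∀ t : E 2, (⨆ (R : ℝ) (_ : 0 < R), (∫⁻ y : E m, ‖S f R (a t + b y)‖ₑ ^ 2) /
      ENNReal.ofReal (L3 (R * ‖t‖) ^ 12)) ≤ ∫⁻ η : E m, H a b f (η, t) ^ 2 := by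
    intro t
    refine iSup₂_le fun R hR => ?_
    have hc : 0 < L3 (R * ‖t‖) := L3_pos (mul_nonneg hR.le (norm_nonneg t))
    have hc' : (ENNReal.ofReal (L3 (R * ‖t‖) ^ 12))⁻¹ ≠ ⊤ := by
      rw [ENNReal.inv_ne_top]
      exact (ENNReal.ofReal_pos.2 (by positivity)).ne'
    rw [h4 n 2 m a b f hs hf R t hR, ENNReal.div_eq_inv_mul, ← lintegral_const_mul' _ _ hc']
    refine (lintegral_mono_ae ?_).trans (setLIntegral_le_lintegral (Metric.ball 0 R)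
      fun η => H a b f (η, t) ^ 2)
    filter_upwards [ae_restrict_of_ae hae, ae_restrict_mem measurableSet_ball] with η hη hb
    rw [mem_ball_zero_iff] at hb
    rw [sq_eq' hc]
    have hη0 : 0 ≤ ‖η‖ := norm_nonneg η
    have hρ : 0 ≤ Real.sqrt (R ^ 2 - ‖η‖ ^ 2) := Real.sqrt_nonneg _
    have hρR : Real.sqrt (R ^ 2 - ‖η‖ ^ 2) ≤ R := by
      rw [Real.sqrt_le_left hR.le]
      nlinarith
    refine pow_le_pow_left' (le_trans (ENNReal.ofReal_le_ofReal ?_) (le_H hη.1 hη.2 t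
      (Real.sqrt (R ^ 2 - ‖η‖ ^ 2)))) 2
    rw [abs_of_nonneg hρ]
    have h5 : 0 < L3 (Real.sqrt (R ^ 2 - ‖η‖ ^ 2) * ‖t‖) :=
      L3_pos (mul_nonneg hρ (norm_nonneg t))
    have h6 : L3 (Real.sqrt (R ^ 2 - ‖η‖ ^ 2) * ‖t‖) ≤ L3 (R * ‖t‖) :=
      L3_mono (mul_nonneg hρ (norm_nonneg t))
        (mul_le_mul_of_nonneg_right hρR (norm_nonneg t))
    exact div_le_div_of_nonneg_left (norm_nonneg _) (by positivity)
      (pow_le_pow_left₀ h5.le h6 6)
  have hm : Measurable fun q : E m × E 2 => H a b f q ^ 2 := (H_meas h3 a b f hf).pow_const 2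
  calc ∫⁻ t : E 2, (⨆ (R : ℝ) (_ : 0 < R), (∫⁻ y : E m, ‖S f R (a t + b y)‖ₑ ^ 2) /
        ENNReal.ofReal (L3 (R * ‖t‖) ^ 12))
      ≤ ∫⁻ t : E 2, ∫⁻ η : E m, H a b f (η, t) ^ 2 := lintegral_mono key
    _ = ∫⁻ η : E m, ∫⁻ t : E 2, H a b f (η, t) ^ 2 :=
        lintegral_lintegral_swap (f := fun (t : E 2) (η : E m) => H a b f (η, t) ^ 2)
          (hm.comp measurable_swap).aemeasurable
    _ ≤ ∫⁻ η : E m, C * ∫⁻ t, ‖PF a b f η t‖ₑ ^ 2 := by
        refine lintegral_mono_ae ?_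
        filter_upwards [hae] with η hη
        refine le_trans (lintegral_mono fun t => ?_) (hC (PF a b f η) hη.1)
        exact pow_le_pow_left' (H_le hη.2 t) 2
    _ = C * ∫⁻ η : E m, ∫⁻ t, ‖PF a b f η t‖ₑ ^ 2 := lintegral_const_mul' _ _ (by simp)
    _ = _ := by rw [hpl]

end Pool.Agent.CYL
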