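import Pool.Agent.CYL.Targets3
import Pool.Agent.CYL.P_CYL

set_option autoImplicit false

/-!
# CYL, target GRI: growth theorem for radii which depend on two coordinates
-/

namespace Pool.Agent.CYL

open MeasureTheory FourierTransform Set Filter Topology
open scoped ENNReal NNReal ComplexConjugate
open Pool.Agent.MBS (E ex S)
open Pool.Agent.CRN (Nice)
open Pool.Agent.CRW (L3)

namespace GRI_

theorem L3_pos {s : ℝ} (hs : 0 ≤ s) : 0 < L3 s := by
  unfold L3
  refine Real.log_pos ?_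
  have : 0 ≤ Real.log (3 + s) := Real.log_nonneg (by linarith)
  linarith

theorem L3_meas : Measurable L3 := by
  unfold L3
  fun_prop

end GRI_

open GRI_ in
/-- GRI -/
theorem p_GRI (h1 : T_GRC) (h2 : T_GE2) (h3 : T_GEO) (h4 : T_SPL) : T_GRI := by
  intro hG
  obtain ⟨C, hC⟩ := h1 hG
  refine ⟨C, ?_⟩
  -- the case `p = 0`
  have core : ∀ (n : ℕ) (W : Submodule ℝ (E n)) (f : E n → ℂ) (R : E n → ℝ),
      Module.finrank ℝ W + 2 = n → Nice f → Measurable R → (∀ x, 0 < R x) →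
      (∀ x, ∀ w ∈ W, R (x + w) = R x) →
      ∫⁻ x, ‖S f (R x) x‖ₑ ^ 2 /
        ENNReal.ofReal (L3 (R x * Metric.infDist x (W : Set (E n))) ^ 12) ≤
          C * ∫⁻ x, ‖f x‖ₑ ^ 2 := by
    intro n W f R hW hf hR hR0 hinv
    obtain ⟨m, a, b, hs, hbW, hdist⟩ := h2 n W hW
    have hm : Measurable (fun x : E n => ‖S f (R x) x‖ₑ ^ 2 /
        ENNReal.ofReal (L3 (R x * Metric.infDist x (W : Set (E n))) ^ 12)) :=
      ((Pool.Agent.CRR.RCH_.S_meas hf.int hR).enorm.pow_const 2).div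
        (ENNReal.measurable_ofReal.comp
          ((L3_meas.comp (hR.mul measurable_infDist)).pow_const 12))
    rw [(h4 n 2 m a b hs).2.1 _ hm]
    refine le_trans ?_ (hC n m a b f hs hf)
    refine lintegral_mono fun t => ?_
    have e : ∀ y : E m, ‖S f (R (a t + b y)) (a t + b y)‖ₑ ^ 2 /
        ENNReal.ofReal (L3 (R (a t + b y) *
          Metric.infDist (a t + b y) (W : Set (E n))) ^ 12) =
        ‖S f (R (a t)) (a t + b y)‖ₑ ^ 2 *
          (ENNReal.ofReal (L3 (R (a t) * ‖t‖) ^ 12))⁻¹ := by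
      intro y
      rw [hinv (a t) (b y) (hbW y), hdist, div_eq_mul_inv]
    simp only [e]
    have hpos : ENNReal.ofReal (L3 (R (a t) * ‖t‖) ^ 12) ≠ 0 := by
      have : 0 < L3 (R (a t) * ‖t‖) ^ 12 :=
        pow_pos (L3_pos (mul_nonneg (hR0 _).le (norm_nonneg _))) 12
      simpa using this
    rw [lintegral_mul_const' _ _ (ENNReal.inv_ne_top.2 hpos), ← div_eq_mul_inv]
    exact le_iSup₂_of_le (R (a t)) (hR0 _) le_rfl
  intro n W p f R _ hW hf hR hR0 hinv
  have key := core n W (fun z => f (z + p)) (fun x => R (x + p)) hW (CYL_.nice_shift hf p)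
    (hR.comp (measurable_add_const p)) (fun x => hR0 _) (by
      intro x w hw
      rw [add_right_comm]
      exact hinv _ w hw)
  have e1 : ∫⁻ x, ‖S (fun z => f (z + p)) (R (x + p)) x‖ₑ ^ 2 /
      ENNReal.ofReal (L3 (R (x + p) * Metric.infDist x (W : Set (E n))) ^ 12) =
      ∫⁻ x, ‖S f (R x) x‖ₑ ^ 2 /
        ENNReal.ofReal (L3 (R x * Metric.infDist (x - p) (W : Set (E n))) ^ 12) := by
    rw [← lintegral_add_right_eq_self (fun x => ‖S f (R x) x‖ₑ ^ 2 /
        ENNReal.ofReal (L3 (R x * Metric.infDist (x - p) (W : Set (E n))) ^ 12)) p]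
    refine lintegral_congr fun x => ?_
    rw [h3.2 n f p (R (x + p)) x hf.int, add_sub_cancel_right]
  have e2 : ∫⁻ x, ‖f (x + p)‖ₑ ^ 2 = ∫⁻ x, ‖f x‖ₑ ^ 2 :=
    lintegral_add_right_eq_self (fun x => ‖f x‖ₑ ^ 2) p
  rw [e1, e2] at key
  exact key

end Pool.Agent.CYL
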