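import Pool.Agent.CYL.Targets
import Pool.Agent.VRR.Targets2

set_option autoImplicit false

/-!
# CYL, second part: radii with few values on the cylinders around a subspace (MP_ee701d_an)

For `n ≥ 2`, an affine subspace `p + W ≠ ℝⁿ`, `M ≥ 1`, `A ≥ 0` and Borel `R : ℝⁿ → (0,∞)` which takes, up to `A/|x - p|`, at
most `M` values on every set `{dist(x, p + W) = r}`:
`∫ |S_{R(x)} f(x)|² dx ≤ C(n) ((log(2+M))¹⁶ + (log(2+A))²) ∫ |f|²` for all Borel `f ∈ L¹ ∩ L²`.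

Every target `T_X` is to be proved as `theorem p_X : T_X` (other targets may be taken as hypotheses)
in a NEW file `Pool/Agent/CYL/P_X.lean` importing this one, namespace `Pool.Agent.CYL`, helper lemmas
in the sub-namespace `X_`. Landed: `CYL/P_*.lean` (SPL, PFT, MEA, PLY, LI1, CYB, GEO, CYL), `VRC/P_RAV.lean`, `VRC/P_NVD.lean`
(the same for the exponent 4), `VRR/Targets2.lean`. The dimension `m = 0` is allowed.
-/

namespace Pool.Agent.CYL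

open MeasureTheory FourierTransform Set Filter Topology
open scoped ENNReal NNReal ComplexConjugate
open Pool.Agent.MBS (E ex S)
open Pool.Agent.CAR (e1)
open Pool.Agent.CRN (Nice sg T_POLN)
open Pool.Agent.CRR (T_OSC)
open Pool.Agent.VRR (kr VS VC T_RAV T_C4 T_REX)

/-- the radius of the slice at `η` of the ball of radius `R`; `-1` if it is empty -/
noncomputable def sl {m : ℕ} (R : ℝ) (η : E m) : ℝ :=
  open Classical in if ‖η‖ < R then Real.sqrt (R ^ 2 - ‖η‖ ^ 2) else -1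

/-- the `q`-variation in the radius of the ball partial sums with values in `L²` of the cylinder
`{a (r θ) + b y : |θ| = 1, y ∈ ℝᵐ}` -/
noncomputable def VT {n d m : ℕ} (a : E d →ₗᵢ[ℝ] E n) (b : E m →ₗᵢ[ℝ] E n) (q : ℝ) (f : E n → ℂ)
    (r : ℝ) : ℝ≥0∞ :=
  ⨆ (L : ℕ) (N : ℕ → ℝ) (_ : Monotone N), (∑ j ∈ Finset.range L,
    (∫⁻ θ, ∫⁻ y, ‖S f (N (j + 1)) (a (r • (θ : E d)) + b y) -
      S f (N j) (a (r • (θ : E d)) + b y)‖ₑ ^ 2 ∂volume ∂(sg d)) ^ (q / 2)) ^ (1 / q)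

/-- the same for the slices -/
noncomputable def GV {n d m : ℕ} (a : E d →ₗᵢ[ℝ] E n) (b : E m →ₗᵢ[ℝ] E n) (q : ℝ) (f : E n → ℂ)
    (η : E m) (r : ℝ) : ℝ≥0∞ :=
  ⨆ (L : ℕ) (N : ℕ → ℝ) (_ : Monotone N), (∑ j ∈ Finset.range L,
    (∫⁻ θ, ‖GS a b f (N (j + 1)) η (r • (θ : E d)) - GS a b f (N j) η (r • (θ : E d))‖ₑ ^ 2
      ∂(sg d)) ^ (q / 2)) ^ (1 / q)

/-- **RA1** (75 min; from C4): the theorem RAV in dimension `1`. The unit sphere of `E 1` is two points `±e` of mass `1`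
(`POLN` for `n = 1`, or `toSphere`; total mass `2`). As in `CYL/P_LI1.lean` put `h = 𝓕 f` on `ℝ`, `g_T = h 1_{[-T,T]}`; for
`0 ≤ R ≤ R' ≤ T`: `S f R' x - S f R x = ∫_{[-R', -R)} + ∫_{(R, R']}` of `g_T e1(x 0 ·)`, so for monotone `N` (negative radii: `S f = 0`)
the `q`-variation is at most `VC q g_T (x 0)` twice (the second intervals are increasing, the first ones decreasing:
reverse the finite sequence or use the reflected `g`; single points are null sets). `VS q f r` is at most the sum over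
`x = ±r e` of these variations (`ℓ^q` of `L²` of two points, `L² ≤` sum); C4; `T → ∞` by monotone convergence (the
variation over `N ≤ T`). -/
def T_RA1 : Prop := ∃ C : ℝ≥0, ∀ (q : ℝ), 2 < q → q ≤ 4 → ∀ f : E 1 → ℂ, Nice f →
  ∫⁻ r in Ioi (0 : ℝ), VS q f r ^ 2 ≤ C * ENNReal.ofReal (kr q ^ 6) * ∫⁻ x, ‖f x‖ₑ ^ 2

/-- **PLD** (45 min; uses SPL, MEA): Plancherel in `y` for the difference of two radii; see `CYL/P_PLY.lean`: `S f R (a t + b y)`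
is the inverse Fourier transform of `η ↦ GS (sl R η) η t` (`GS` of the radius `-1` is `0`, `S f R = 0` for `R ≤ 0`, the sphere
`|η| = R` does not matter), which is bounded with bounded support. -/
def T_PLD : Prop := ∀ (n d m : ℕ) (a : E d →ₗᵢ[ℝ] E n) (b : E m →ₗᵢ[ℝ] E n) (f : E n → ℂ),
  Spl a b → Nice f → 1 ≤ d → ∀ (R R' : ℝ) (t : E d),
  ∫⁻ y, ‖S f R' (a t + b y) - S f R (a t + b y)‖ₑ ^ 2 =
    ∫⁻ η, ‖GS a b f (sl R' η) η t - GS a b f (sl R η) η t‖ₑ ^ 2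

/-- **GVM** (60 min; uses MEA): joint measurability. For fixed `c, c'` the function
`(η, r) ↦ ∫_θ |GS c' η (rθ) - GS c η (rθ)|²` is measurable (MEA, `Measurable.lintegral_prod_right'`) and continuous in `c, c'` for
fixed `(η, r)` (spheres are null sets, `d ≥ 1`; dominated convergence), so `N 0, .., N L` may be taken rational: a
countable supremum. See the measurability part of `VRC/P_RAV.lean`. -/
def T_GVM : Prop := ∀ (n d m : ℕ) (a : E d →ₗᵢ[ℝ] E n) (b : E m →ₗᵢ[ℝ] E n) (f : E n → ℂ) (q : ℝ),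
  Nice f → 1 ≤ d → 2 < q → q ≤ 4 → Measurable (fun p : E m × ℝ => GV a b q f p.1 p.2)

/-- **VTG** (60 min; uses PLD, MEA). For monotone `N` put `A_j(η) = ∫_θ |GS (sl (N (j+1)) η) η (rθ) - GS (sl (N j) η) η (rθ)|²`. By PLD
and Tonelli the `j`-th integral in `VT` is `∫_η A_j`, and Minkowski (`p = q/2 ≥ 1`):
`(∑_j (∫ A_j)^p)^{1/p} ≤ ∫ (∑_j A_j^p)^{1/p}` (if all `∫ A_j < ∞`: `norm_integral_le_integral_norm` in `PiLp p`; they are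
finite for Nice `f`, since `S f R ∈ L²`; or see `VRC/P_RAV.lean`); `j ↦ sl (N j) η` is monotone, so the integrand is
`≤ GV η r ²`. -/
def T_VTG : Prop := ∀ (n d m : ℕ) (a : E d →ₗᵢ[ℝ] E n) (b : E m →ₗᵢ[ℝ] E n) (f : E n → ℂ) (q : ℝ),
  Spl a b → Nice f → 1 ≤ d → 2 < q → q ≤ 4 →
  ∀ r : ℝ, VT a b q f r ^ 2 ≤ ∫⁻ η, GV a b q f η r ^ 2

/-- **VTI** (45 min; uses VTG, GVM, PFT, RAV (for `d ≥ 2`), RA1 (for `d = 1`)). VTG, Tonelli (GVM), and for almost every `η`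
(PFT) `GV a b q f η r = VS q (PF a b f η) r`; `kr q ≥ 2`, so `kr q ^ 6 ≤ kr q ^ 14`. -/
def T_VTI : Prop := ∀ d : ℕ, 1 ≤ d → ∃ C : ℝ≥0, ∀ (q : ℝ), 2 < q → q ≤ 4 → ∀ (n m : ℕ)
  (a : E d →ₗᵢ[ℝ] E n) (b : E m →ₗᵢ[ℝ] E n) (f : E n → ℂ), Spl a b → Nice f →
  ∫⁻ r in Ioi (0 : ℝ), VT a b q f r ^ 2 * ENNReal.ofReal (r ^ (d - 1)) ≤
    C * ENNReal.ofReal (kr q ^ 14) * ∫⁻ x, ‖f x‖ₑ ^ 2

/-- **NVX** (45 min; uses REX): Rademacher–Menshov with the `q`-variation on any measure space; this is the proof of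
`VRC/P_NVD.lean` (sorted radii, `F 0 = 0`, binary expansion) with `4` replaced by `q`, see `VRR.T_NVD`: the `l`-th term is
at most `(2^{s-l})^{1/2-1/q} V`, the sum over `l ≤ s` at most `C K (2^s)^{1/2-1/q} V`, `2^s ≤ 2 M`. -/
def T_NVX : Prop := ∃ C : ℝ≥0, ∀ (q : ℝ), 2 < q → q ≤ 4 →
  ∀ (X : Type) [MeasurableSpace X] (μ : Measure X) (F : ℝ → X → ℂ) (M : ℕ) (R : ℕ → ℝ),
  1 ≤ M → (∀ c, Measurable (F c)) → (∀ x, F 0 x = 0) → (∀ j, 0 < R j) →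
    ∫⁻ x, (⨆ (j : ℕ) (_ : j < M), ‖F (R j) x‖ₑ) ^ 2 ∂μ ≤
      C * ENNReal.ofReal (kr q ^ 2 * (M : ℝ) ^ (1 - 2 / q)) *
      (⨆ (L : ℕ) (N : ℕ → ℝ) (_ : Monotone N), (∑ j ∈ Finset.range L,
        (∫⁻ x, ‖F (N (j + 1)) x - F (N j) x‖ₑ ^ 2 ∂μ) ^ (q / 2)) ^ (1 / q)) ^ 2

/-- **NVC** (60 min; uses VTI, NVX, CRN.POLN). Choose `q` with `1 - 2/q = 1/(2 + log M)`: `kr q = 2 + log M ≤ 4 log (2 + M)`,
`M^(1-2/q) ≤ e`. POLN in `t`; for every `r > 0` NVX with `X = sphere × E m`, `μ = (sg d).prod volume`,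
`F c (θ, y) = S f c (a (r θ) + b y)` (`F 0 = 0` as `n ≥ d ≥ 1`); VTI. See `VRR.T_NVR`, `VRC/P_NVF.lean`. -/
def T_NVC : Prop := ∀ d : ℕ, 1 ≤ d → ∃ C : ℝ≥0, ∀ (n m M : ℕ) (a : E d →ₗᵢ[ℝ] E n)
  (b : E m →ₗᵢ[ℝ] E n) (f : E n → ℂ) (ρ : ℕ → ℝ → ℝ), Spl a b → Nice f → 1 ≤ M →
  (∀ j, Measurable (ρ j)) → (∀ j t, 0 < ρ j t) →
  ∫⁻ t : E d, ∫⁻ y : E m, (⨆ (j : ℕ) (_ : j < M), ‖S f (ρ j ‖t‖) (a t + b y)‖ₑ) ^ 2 ≤
    C * ENNReal.ofReal (Real.log (2 + M) ^ 16) * ∫⁻ x, ‖f x‖ₑ ^ 2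

/-- **CVF** (45 min; uses NVC, OSC, GEO, SPL): the final theorem; see `CYL/P_CYL.lean`. -/
def T_CVF : Prop := ∀ n : ℕ, 2 ≤ n → ∃ C : ℝ≥0, ∀ (W : Submodule ℝ (E n)) (p : E n) (M : ℕ)
  (A : ℝ) (f : E n → ℂ) (R : E n → ℝ) (ρ : ℕ → ℝ → ℝ), W ≠ ⊤ → 1 ≤ M → 0 ≤ A → Nice f →
  Measurable R → (∀ x, 0 < R x) → (∀ j, Measurable (ρ j)) → (∀ j t, 0 < ρ j t) →
  (∀ x, x ≠ p → ∃ j < M, |R x - ρ j (Metric.infDist (x - p) (W : Set (E n)))| ≤ A / ‖x - p‖) →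
  ∫⁻ x, ‖S f (R x) x‖ₑ ^ 2 ≤
    C * ENNReal.ofReal (Real.log (2 + M) ^ 16 + Real.log (2 + A) ^ 2) * ∫⁻ x, ‖f x‖ₑ ^ 2

end Pool.Agent.CYL
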