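import Pool.Agent.CYL.Targets
import Pool.Agent.CRW.Targets4

set_option autoImplicit false

/-!
# CYL, third part: the planar growth theorem for radii which depend on two coordinates, all dimensions (MP_ee701d_an)

For `n ≥ 2`, a subspace `W` of codimension `2`, `p ∈ ℝⁿ` and a Borel function `R : ℝⁿ → (0,∞)` with `R(x + w) = R(x)`, `w ∈ W`:
`∫ |S_{R(x)} f(x)|² / (log(3 + log(3 + R(x) dist(x, p + W))))¹² dx ≤ C ∫ |f|²`. For `n = 2`, `R` is arbitrary (CRW.GRW).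
Every target `T_X` is to be proved as `theorem p_X : T_X` in a NEW file `Pool/Agent/CYL/P_X.lean` importing this one, helper
lemmas in the sub-namespace `X_`.
-/

namespace Pool.Agent.CYL

open MeasureTheory FourierTransform Set Filter Topology
open scoped ENNReal NNReal ComplexConjugate
open Pool.Agent.MBS (E ex S)
open Pool.Agent.CRN (Nice)
open Pool.Agent.CRW (L3)

/-- the conclusion of `CRW.T_GRW` -/
def GRWc : Prop := ∃ C : ℝ≥0, ∀ f : E 2 → ℂ, Nice f →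
  ∫⁻ x, (⨆ (R : ℝ) (_ : 0 < R), ‖S f R x‖ₑ / ENNReal.ofReal (L3 (R * ‖x‖) ^ 6)) ^ 2 ≤
    C * ∫⁻ x, ‖f x‖ₑ ^ 2

/-- **GE2** (30 min): orthonormal bases of `Wᗮ` (dimension `2`) and of `W`; see `CYL/P_GEO.lean`. -/
def T_GE2 : Prop := ∀ (n : ℕ) (W : Submodule ℝ (E n)), Module.finrank ℝ W + 2 = n →
  ∃ (m : ℕ) (a : E 2 →ₗᵢ[ℝ] E n) (b : E m →ₗᵢ[ℝ] E n), Spl a b ∧ (∀ y, b y ∈ W) ∧
    ∀ (t : E 2) (y : E m), Metric.infDist (a t + b y) (W : Set (E n)) = ‖t‖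

/-- **GRC** (75 min; uses SPL, PFT, MEA, PLY): `∫_y |S f R (a t + b y)|² = ∫_{|η| < R} |GS (√(R²-|η|²)) η t|² dη` (PLY), for almost every `η`
`GS ρ η t = S (PF η) ρ t` for all `ρ`, `t` (PFT), and `L3` is increasing, `√(R²-|η|²) ≤ R`: the supremum is at most
`∫_η (sup_ρ |S (PF η) ρ t| / L3 (ρ|t|)^6)²`. Tonelli (joint measurability: the supremum over rational `ρ > 0` of measurable functions, MEA; `GS ρ η t` is
continuous in `ρ > 0`), GRWc for `PF η` (Nice for almost every `η`), and the last part of PFT. -/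
def T_GRC : Prop := GRWc → ∃ C : ℝ≥0, ∀ (n m : ℕ) (a : E 2 →ₗᵢ[ℝ] E n) (b : E m →ₗᵢ[ℝ] E n)
  (f : E n → ℂ), Spl a b → Nice f →
  ∫⁻ t : E 2, (⨆ (R : ℝ) (_ : 0 < R), (∫⁻ y : E m, ‖S f R (a t + b y)‖ₑ ^ 2) /
    ENNReal.ofReal (L3 (R * ‖t‖) ^ 12)) ≤ C * ∫⁻ x, ‖f x‖ₑ ^ 2

/-- **GRI** (60 min; uses GRC, GE2, GEO (second part, translations), SPL): the final theorem. Translate to `p = 0`; `R (a t + b y) = R (a t)` by invariance;
SPL: the integral is `∫_t (∫_y |S f (R (a t)) (a t + b y)|² dy) / L3 (R (a t) |t|)^12`. (Measurability of `x ↦ S f (R x) x`: as in `CRR/P_RCH.lean`.) -/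
def T_GRI : Prop := GRWc → ∃ C : ℝ≥0, ∀ (n : ℕ) (W : Submodule ℝ (E n)) (p : E n) (f : E n → ℂ)
  (R : E n → ℝ), 2 ≤ n → Module.finrank ℝ W + 2 = n → Nice f → Measurable R → (∀ x, 0 < R x) →
  (∀ x, ∀ w ∈ W, R (x + w) = R x) →
  ∫⁻ x, ‖S f (R x) x‖ₑ ^ 2 /
    ENNReal.ofReal (L3 (R x * Metric.infDist (x - p) (W : Set (E n))) ^ 12) ≤
      C * ∫⁻ x, ‖f x‖ₑ ^ 2

end Pool.Agent.CYL
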